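import Pool.Agent.LTFN.Defs

/-!
# [LTFN-FPt] the pointwise inequality

`r = 0`: both sides are `0`. Let `r > 0`, `v = (2/d) log r`, so `r^(2/d) = exp v`. Window `i`: `s_i = t₀ + i η`,
`t_i = t₀ + (i+1) η`, `E_i = exp (t_i + η)`, `χ_i = a((v - s_i)/η) b((v - t_i)/η)`, which is zero unless `s_i < v < t_i + η`.
If `χ_i ≠ 0` put `x_i = t_i + η - v ∈ (0, 2η)`: `E_i = e^v e^(x_i)` and
`(2/d) log (E_i^(d/2) / (χ_i² r)) = x_i + (2/d) log (1/χ_i²)`, so
`E_i Pf(E_i, χ_i² r) = r e^v e^(x_i) (χ_i² (1 + 2/κ - (1 + 1/κ) x_i) - (1 + 1/κ) (2/d) χ_i² log (1/χ_i²))`.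
(If `χ_i = 0` the term is `0`.) Facts for `0 ≤ x ≤ 1/2`: `e^x (1 - x) ≥ 1 - x²`, `e^x (2/κ - x/κ) ≥ (2 - x)/κ`, so
`e^x (1 + 2/κ - (1 + 1/κ) x) ≥ 1 - 4 η² + (2 - 2 η)/κ`  for `x ≤ 2 η`; and `e^x ≤ 1.65`, `1 + 1/κ ≤ 2`,
`t log (1/t) ≤ 1/e ≤ 0.37` for `t ∈ [0,1]`: the last term is `≥ -(2 * 1.65 * 0.37 * 2 / d) ≥ -2.5/d`.
Case `v ≥ t₀ + η`: (then `m ≥ 1`) let `v ∈ [s_j, s_(j+1)]` with `1 ≤ j ≤ m`; at most the two windows `j - 1`, `j` are active (for
`j = m` only `m - 1`, when `v = s_m`), and `χ_(j-1)² + χ_j² = 1` (`hT.sq` at `(v - s_j)/η`: for the window `j-1` the factor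
`a` is `1`, for the window `j` the factor `b` is `1`). Total `≥ r e^v (1 - 4 η² + (2 - 2η)/κ - 5/d)`.
Case `v < t₀ + η`: at most the window `0` is active: right side `≥ -(5/2) r e^v` and left side
`≤ 3 r e^v - 6 e^(t₀ + η) r`; with `e^v ≤ e^(t₀ + η)` the claim follows (`1 - 4η² + (2 - 2η)/κ - 5/d ≤ 3`).
The proof of `ptwise` in Pool.Agent.LTHD.Ptwise (helper60) treats the same windows; parts can be copied.
-/

open Real Finset MeasureTheory
open Pool.Agent.LiebT2 Pool.Agent.LTHD

set_option autoImplicit false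

namespace Pool.Agent.LTFN

variable {d k N : ℕ}

private theorem fpt_neg_mul_log {t : ℝ} (ht : 0 < t) : -(t * Real.log t) ≤ 37 / 100 := by
  have he : 0 < Real.exp 1 := Real.exp_pos 1
  have h1 : Real.log (1 / (Real.exp 1 * t)) ≤ 1 / (Real.exp 1 * t) - 1 :=
    Real.log_le_sub_one_of_pos (by positivity)
  have h2 : Real.log (1 / (Real.exp 1 * t)) = -1 - Real.log t := by
    rw [one_div, Real.log_inv, Real.log_mul he.ne' ht.ne', Real.log_exp]; ring
  rw [h2] at h1
  have h3 : t * (-Real.log t) ≤ t * (1 / (Real.exp 1 * t)) :=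
    mul_le_mul_of_nonneg_left (by linarith) ht.le
  have h4 : t * (1 / (Real.exp 1 * t)) = 1 / Real.exp 1 := by field_simp
  have h5 : 1 / Real.exp 1 ≤ 37 / 100 := by
    rw [div_le_iff₀ he]
    have := Real.exp_one_gt_d9
    linarith
  have h6 : -(t * Real.log t) = t * (-Real.log t) := by ring
  rw [h6]
  linarith [h3, h4.le, h5]

private theorem fpt_exp_le {x : ℝ} (hx : x ≤ 1 / 2) : Real.exp x ≤ 165 / 100 := by
  have h1 : Real.exp x ≤ Real.exp (1 / 2) := Real.exp_le_exp.mpr hx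
  have h2 : Real.exp (1 / 2) ≤ 165 / 100 := by
    have h3 : Real.exp (1 / 2) * Real.exp (1 / 2) = Real.exp 1 := by
      rw [← Real.exp_add]; norm_num
    have h4 := Real.exp_one_lt_d9
    have h5 := Real.exp_pos (1 / 2)
    by_contra hc
    push Not at hc
    have h6 : (165 / 100 : ℝ) * (165 / 100) < Real.exp (1 / 2) * Real.exp (1 / 2) :=
      mul_lt_mul'' hc hc (by norm_num) (by norm_num)
    rw [h3] at h6
    norm_num at h6 h4
    linarith
  linarith

/-- lower bound for one active window -/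
private theorem fpt_window {η x κ D c : ℝ} (hη' : η ≤ 1 / 4) (hκ : 1 ≤ κ) (hD : 0 < D)
    (hx0 : 0 ≤ x) (hx1 : x ≤ 2 * η) (hc : 0 < c) (hc1 : c ≤ 1) :
    c * (1 - 4 * η ^ 2 + (2 - 2 * η) / κ) - (5 / 2) / D ≤
      Real.exp x * (c * ((1 + 2 / κ) - (1 + 1 / κ) * (x - (2 / D) * Real.log c))) := by
  have hκ0 : 0 < κ := by linarith
  have hk1 : 1 / κ ≤ 1 := by rw [div_le_one hκ0]; exact hκ
  have hk0 : 0 < 1 / κ := by positivity
  have hx2 : x ≤ 1 / 2 := by linarith
  have he1 : 1 + x ≤ Real.exp x := by linarith [Real.add_one_le_exp x]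
  have he0 : 1 ≤ Real.exp x := by linarith
  have heu := fpt_exp_le hx2
  have hlog := fpt_neg_mul_log hc
  have hlog0 : 0 ≤ -(c * Real.log c) := by
    have : Real.log c ≤ 0 := Real.log_nonpos hc.le hc1
    nlinarith
  -- main part
  have hA : 1 - 4 * η ^ 2 ≤ Real.exp x * (1 - x) := by
    have h1 : (1 + x) * (1 - x) ≤ Real.exp x * (1 - x) :=
      mul_le_mul_of_nonneg_right he1 (by linarith)
    nlinarith
  have hB : (2 - 2 * η) * (1 / κ) ≤ Real.exp x * ((2 - x) * (1 / κ)) := by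
    have h1 : (2 - 2 * η) * (1 / κ) ≤ (2 - x) * (1 / κ) :=
      mul_le_mul_of_nonneg_right (by linarith) hk0.le
    have h2 : (2 - x) * (1 / κ) * 1 ≤ (2 - x) * (1 / κ) * Real.exp x :=
      mul_le_mul_of_nonneg_left he0 (mul_nonneg (by linarith) hk0.le)
    linarith
  have hC : Real.exp x * ((1 + 1 / κ) * ((2 / D) * (-(c * Real.log c)))) ≤ (5 / 2) / D := by
    have h2 : (1 + 1 / κ) * ((2 / D) * (-(c * Real.log c))) ≤ 2 * ((2 / D) * (37 / 100)) := by
      apply mul_le_mul (by linarith) _ (by positivity) (by norm_num)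
      exact mul_le_mul_of_nonneg_left hlog (by positivity)
    have h3 : Real.exp x * ((1 + 1 / κ) * ((2 / D) * (-(c * Real.log c)))) ≤
        (165 / 100) * (2 * ((2 / D) * (37 / 100))) := by
      apply mul_le_mul heu h2 _ (by norm_num)
      positivity
    have h4 : (165 / 100 : ℝ) * (2 * ((2 / D) * (37 / 100))) = (2442 / 1000) / D := by ring
    rw [h4] at h3
    have h5 : (2442 / 1000 : ℝ) / D ≤ (5 / 2) / D := by
      apply div_le_div_of_nonneg_right _ hD.le
      norm_num
    linarith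
  have hAB : c * (1 - 4 * η ^ 2 + (2 - 2 * η) / κ) ≤
      c * (Real.exp x * ((1 + 2 / κ) - (1 + 1 / κ) * x)) := by
    apply mul_le_mul_of_nonneg_left _ hc.le
    have e1 : Real.exp x * ((1 + 2 / κ) - (1 + 1 / κ) * x) =
        Real.exp x * (1 - x) + Real.exp x * ((2 - x) * (1 / κ)) := by ring
    have e2 : (2 - 2 * η) / κ = (2 - 2 * η) * (1 / κ) := by ring
    rw [e1, e2]
    linarith
  have e3 : Real.exp x * (c * ((1 + 2 / κ) - (1 + 1 / κ) * (x - (2 / D) * Real.log c))) =
      c * (Real.exp x * ((1 + 2 / κ) - (1 + 1 / κ) * x))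
        - Real.exp x * ((1 + 1 / κ) * ((2 / D) * (-(c * Real.log c)))) := by ring
  rw [e3]
  linarith

private theorem fpt_a1 {a b : ℝ → ℝ} {D : ℝ} (hT : Trans a b D) {x : ℝ} (hx : 1 ≤ x) : a x = 1 := by
  have h1 := hT.sq x
  rw [hT.b1 x hx] at h1
  have h2 := hT.na x
  nlinarith

private theorem fpt_b0 {a b : ℝ → ℝ} {D : ℝ} (hT : Trans a b D) {x : ℝ} (hx : x ≤ 0) : b x = 1 := by
  have h1 := hT.sq x
  rw [hT.a0 x hx] at h1
  have h2 := hT.nb x
  nlinarith

private theorem fpt_ale {a b : ℝ → ℝ} {D : ℝ} (hT : Trans a b D) (x : ℝ) : a x ≤ 1 := by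
  have h1 := hT.sq x
  nlinarith [sq_nonneg (b x), hT.na x]

private theorem fpt_ble {a b : ℝ → ℝ} {D : ℝ} (hT : Trans a b D) (x : ℝ) : b x ≤ 1 := by
  have h1 := hT.sq x
  nlinarith [sq_nonneg (a x), hT.nb x]

/-- one term of the sum -/
private theorem fpt_term {a b : ℝ → ℝ} {D : ℝ} (hT : Trans a b D) {η t₀ : ℝ} (hη : 0 < η)
    (hη' : η ≤ 1 / 4) (hd : 2 ≤ d) {κ : ℝ} (hκ : 1 ≤ κ) {r : ℝ} (hr : 0 < r) (i : ℕ) :
    r * Real.exp (2 / (d : ℝ) * Real.log r) *
      ((a ((2 / (d : ℝ) * Real.log r - (t₀ + i * η)) / η) *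
        b ((2 / (d : ℝ) * Real.log r - (t₀ + (i + 1 : ℕ) * η)) / η)) ^ 2 *
          (1 - 4 * η ^ 2 + (2 - 2 * η) / κ) - (5 / 2) / d) ≤
    Real.exp (t₀ + (i + 1 : ℕ) * η + η) *
        Pf d κ (Real.exp (t₀ + (i + 1 : ℕ) * η + η))
          (chi a b d η (t₀ + i * η) (t₀ + (i + 1 : ℕ) * η) r ^ 2 * r) := by
  have hd0 : (0 : ℝ) < d := by
    have : (0 : ℝ) < ((2 : ℕ) : ℝ) := by norm_num
    exact lt_of_lt_of_le this (by exact_mod_cast hd)
  have hchi : chi a b d η (t₀ + i * η) (t₀ + (i + 1 : ℕ) * η) r =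
      a ((2 / (d : ℝ) * Real.log r - (t₀ + i * η)) / η) *
        b ((2 / (d : ℝ) * Real.log r - (t₀ + (i + 1 : ℕ) * η)) / η) := by
    unfold chi
    rw [if_neg (not_le.mpr hr)]
  rw [hchi]
  set v : ℝ := 2 / (d : ℝ) * Real.log r with hv
  set A : ℝ := a ((v - (t₀ + i * η)) / η) with hA
  set B : ℝ := b ((v - (t₀ + (i + 1 : ℕ) * η)) / η) with hB
  have hA0 : 0 ≤ A := hT.na _
  have hB0 : 0 ≤ B := hT.nb _
  have hA1 : A ≤ 1 := fpt_ale hT _
  have hB1 : B ≤ 1 := fpt_ble hT _
  by_cases hz : A * B = 0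
  · rw [hz]
    have e0 : Pf d κ (Real.exp (t₀ + (i + 1 : ℕ) * η + η)) ((0 : ℝ) ^ 2 * r) = 0 := by
      unfold Pf; simp
    rw [e0, mul_zero]
    have : 0 < r * Real.exp v := by positivity
    have h5 : 0 < (5 / 2 : ℝ) / d := by positivity
    nlinarith
  · have hAne : A ≠ 0 := fun h => hz (by rw [h, zero_mul])
    have hBne : B ≠ 0 := fun h => hz (by rw [h, mul_zero])
    have hs : t₀ + i * η < v := by
      by_contra hc
      push Not at hc
      apply hAne
      rw [hA]
      apply hT.a0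
      apply div_nonpos_of_nonpos_of_nonneg _ hη.le
      linarith
    have ht : v < t₀ + (i + 1 : ℕ) * η + η := by
      by_contra hc
      push Not at hc
      apply hBne
      rw [hB]
      apply hT.b1
      rw [le_div_iff₀ hη]
      linarith
    have hpos : 0 < A * B := lt_of_le_of_ne (mul_nonneg hA0 hB0) (Ne.symm hz)
    have hAB1 : A * B ≤ 1 := mul_le_one₀ hA1 hB0 hB1
    set c : ℝ := (A * B) ^ 2 with hc
    have hcpos : 0 < c := by positivity
    have hc1 : c ≤ 1 := by rw [hc]; exact pow_le_one₀ hpos.le hAB1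
    set x : ℝ := t₀ + (i + 1 : ℕ) * η + η - v with hx
    have hx0 : 0 ≤ x := by rw [hx]; linarith
    have hx1 : x ≤ 2 * η := by
      rw [hx]; push_cast; linarith
    have hE : Real.exp (t₀ + (i + 1 : ℕ) * η + η) = Real.exp v * Real.exp x := by
      rw [← Real.exp_add, hx]; congr 1; ring
    have hlog : (2 / (d : ℝ)) * Real.log (Real.exp (t₀ + (i + 1 : ℕ) * η + η) ^ ((d : ℝ) / 2) / (c * r)) =
        x - (2 / (d : ℝ)) * Real.log c := by
      rw [Real.log_div (by positivity) (by positivity), Real.log_rpow (Real.exp_pos _), Real.log_exp,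
        Real.log_mul hcpos.ne' hr.ne', hx, hv]
      field_simp
      ring
    have hwin := fpt_window (η := η) (x := x) (κ := κ) (D := (d : ℝ)) (c := c) hη' hκ hd0 hx0 hx1
      hcpos hc1
    have hPf : Pf d κ (Real.exp (t₀ + (i + 1 : ℕ) * η + η)) (c * r) =
        r * (c * ((1 + 2 / κ) - (1 + 1 / κ) * (x - (2 / (d : ℝ)) * Real.log c))) := by
      unfold Pf
      rw [← hlog]; ring
    rw [hPf, hE]
    have hre : 0 < r * Real.exp v := by positivity
    have e1 : Real.exp v * Real.exp x *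
        (r * (c * ((1 + 2 / κ) - (1 + 1 / κ) * (x - (2 / (d : ℝ)) * Real.log c)))) =
        r * Real.exp v * (Real.exp x *
          (c * ((1 + 2 / κ) - (1 + 1 / κ) * (x - (2 / (d : ℝ)) * Real.log c)))) := by ring
    rw [e1]
    exact mul_le_mul_of_nonneg_left hwin hre.le

/-- an inactive window contributes zero -/
private theorem fpt_zero {a b : ℝ → ℝ} {D : ℝ} (hT : Trans a b D) {η t₀ : ℝ} (hη : 0 < η)
    {κ : ℝ} {r : ℝ} (i : ℕ)
    (h : 2 / (d : ℝ) * Real.log r ≤ t₀ + i * η ∨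
      t₀ + (i + 2 : ℝ) * η ≤ 2 / (d : ℝ) * Real.log r) :
    Real.exp (t₀ + (i + 1 : ℕ) * η + η) *
        Pf d κ (Real.exp (t₀ + (i + 1 : ℕ) * η + η))
          (chi a b d η (t₀ + i * η) (t₀ + (i + 1 : ℕ) * η) r ^ 2 * r) = 0 := by
  have hchi : chi a b d η (t₀ + i * η) (t₀ + (i + 1 : ℕ) * η) r = 0 := by
    unfold chi
    split_ifs with h0
    · rfl
    · rcases h with h | h
      · rw [hT.a0, zero_mul]
        apply div_nonpos_of_nonpos_of_nonneg _ hη.le
        linarith
      · rw [hT.b1, mul_zero]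
        rw [le_div_iff₀ hη]
        push_cast
        linarith
  rw [hchi]
  unfold Pf
  simp

theorem fpt {a b : ℝ → ℝ} {D : ℝ} (hT : Trans a b D) {η t₀ : ℝ} (hη : 0 < η) (hη' : η ≤ 1 / 4)
    {m : ℕ} (hd : 2 ≤ d) {κ : ℝ} (hκ : 1 ≤ κ) {r : ℝ} (hr : 0 ≤ r)
    (htop : 0 < r → 2 / (d : ℝ) * Real.log r ≤ t₀ + m * η) :
    r ^ (1 + 2 / (d : ℝ)) * (1 - 4 * η ^ 2 + (2 - 2 * η) / κ - 5 / d)
      - 6 * Real.exp (t₀ + η) * r
    ≤ ∑ i ∈ range m, Real.exp (t₀ + (i + 1 : ℕ) * η + η) *
        Pf d κ (Real.exp (t₀ + (i + 1 : ℕ) * η + η))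
          (chi a b d η (t₀ + i * η) (t₀ + (i + 1 : ℕ) * η) r ^ 2 * r) := by
  have hd0 : (0 : ℝ) < d := by
    have : (0 : ℝ) < ((2 : ℕ) : ℝ) := by norm_num
    exact lt_of_lt_of_le this (by exact_mod_cast hd)
  have hd2 : (2 : ℝ) ≤ d := by exact_mod_cast hd
  have hκ0 : 0 < κ := by linarith
  rcases hr.eq_or_lt with hr0 | hr0
  · -- r = 0
    subst hr0
    rw [Real.zero_rpow (by positivity)]
    have : ∑ i ∈ range m, Real.exp (t₀ + (i + 1 : ℕ) * η + η) *
        Pf d κ (Real.exp (t₀ + (i + 1 : ℕ) * η + η))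
          (chi a b d η (t₀ + i * η) (t₀ + (i + 1 : ℕ) * η) 0 ^ 2 * 0) = 0 := by
      apply Finset.sum_eq_zero
      intro i _
      unfold Pf
      simp
    rw [this]
    simp
  · specialize htop hr0
    set v : ℝ := 2 / (d : ℝ) * Real.log r with hv
    have hrv : r ^ (1 + 2 / (d : ℝ)) = r * Real.exp v := by
      rw [Real.rpow_add hr0, Real.rpow_one, Real.rpow_def_of_pos hr0, hv]
      congr 2
      ring
    rw [hrv]
    have hre : 0 < r * Real.exp v := by positivity
    set Bc : ℝ := 1 - 4 * η ^ 2 + (2 - 2 * η) / κ with hBc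
    have hBlow : 0 ≤ Bc := by
      have h1 : 0 ≤ (2 - 2 * η) / κ := div_nonneg (by linarith) hκ0.le
      rw [hBc]; nlinarith
    have hBup : Bc ≤ 3 := by
      have h1 : (2 - 2 * η) / κ ≤ 2 := by
        rw [div_le_iff₀ hκ0]; nlinarith
      rw [hBc]; nlinarith [sq_nonneg η]
    have h5d : 5 / (d : ℝ) = 2 * ((5 / 2) / d) := by ring
    have h52 : 0 < (5 / 2 : ℝ) / d := by positivity
    by_cases hcase : v < t₀ + η
    · -- only the window 0
      have hexp : Real.exp v ≤ Real.exp (t₀ + η) := Real.exp_le_exp.mpr hcase.le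
      have hrhs : -(r * Real.exp v * ((5 / 2) / d)) ≤
          ∑ i ∈ range m, Real.exp (t₀ + (i + 1 : ℕ) * η + η) *
            Pf d κ (Real.exp (t₀ + (i + 1 : ℕ) * η + η))
              (chi a b d η (t₀ + i * η) (t₀ + (i + 1 : ℕ) * η) r ^ 2 * r) := by
        rcases Nat.eq_zero_or_pos m with hm | hm
        · subst hm
          simp only [Finset.range_zero, Finset.sum_empty]
          have := mul_pos hre h52
          linarith
        · rw [Finset.sum_eq_single_of_mem 0 (Finset.mem_range.mpr hm)]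
          · have h1 := fpt_term (d := d) (t₀ := t₀) hT hη hη' hd hκ hr0 0
            refine le_trans ?_ h1
            rw [← hv, ← hBc]
            have h2 : 0 ≤ (a ((v - (t₀ + ((0 : ℕ) : ℝ) * η)) / η) *
              b ((v - (t₀ + ((0 + 1 : ℕ) : ℝ) * η)) / η)) ^ 2 * Bc := mul_nonneg (sq_nonneg _) hBlow
            have h3 := mul_nonneg hre.le h2
            nlinarith
          · intro i _ hi
            apply fpt_zero hT hη
            left
            have hi1 : (1 : ℝ) ≤ i := by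
              have : 1 ≤ i := Nat.one_le_iff_ne_zero.mpr hi
              exact_mod_cast this
            nlinarith
      have h1 : r * Real.exp v * (Bc - 5 / d) ≤ r * Real.exp v * (3 - 5 / d) :=
        mul_le_mul_of_nonneg_left (by linarith) hre.le
      have h2 : r * Real.exp v ≤ r * Real.exp (t₀ + η) := mul_le_mul_of_nonneg_left hexp hr0.le
      rw [h5d] at h1
      rw [h5d]
      have h3 : 0 < r * Real.exp v * ((5 / 2) / d) := mul_pos hre h52
      have h4 : 6 * Real.exp (t₀ + η) * r = 6 * (r * Real.exp (t₀ + η)) := by ring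
      rw [h4]
      nlinarith
    · push Not at hcase
      -- the index j
      have hm1 : 1 ≤ m := by
        rcases Nat.eq_zero_or_pos m with hm | hm
        · subst hm
          simp only [Nat.cast_zero, zero_mul, add_zero] at htop
          linarith
        · exact hm
      set q : ℝ := (v - t₀) / η with hq
      have hq1 : 1 ≤ q := by rw [hq, le_div_iff₀ hη]; linarith
      have hqm : q ≤ m := by rw [hq, div_le_iff₀ hη]; linarith
      have hvq : v = t₀ + q * η := by
        rw [hq]; field_simp; ring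
      obtain ⟨j, hj⟩ : ∃ j : ℕ, j = ⌊q⌋₊ := ⟨_, rfl⟩
      have hj0 : (j : ℝ) ≤ q := by rw [hj]; exact Nat.floor_le (by linarith)
      have hj1 : q < j + 1 := by rw [hj]; exact Nat.lt_floor_add_one q
      have hjone : 1 ≤ j := by
        rw [hj]; exact (Nat.one_le_floor_iff q).mpr hq1
      have hjm : j ≤ m := by
        have : (j : ℝ) ≤ m := hj0.trans hqm
        exact_mod_cast this
      obtain ⟨l, rfl⟩ : ∃ l, j = l + 1 := ⟨j - 1, by omega⟩
      push_cast at hj0 hj1
      have hlm : l < m := by omega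
      -- vanishing of the other windows
      have hvan : ∀ i : ℕ, i ≠ l → i ≠ l + 1 → Real.exp (t₀ + (i + 1 : ℕ) * η + η) *
            Pf d κ (Real.exp (t₀ + (i + 1 : ℕ) * η + η))
              (chi a b d η (t₀ + i * η) (t₀ + (i + 1 : ℕ) * η) r ^ 2 * r) = 0 := by
        intro i hi1 hi2
        apply fpt_zero hT hη
        rw [← hv, hvq]
        rcases lt_or_ge i l with h | h
        · right
          have : ((i : ℝ) + 1) ≤ l := by exact_mod_cast h
          have h2 : ((i : ℝ) + 2) ≤ q := by linarith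
          nlinarith
        · left
          have h3 : l + 2 ≤ i := by omega
          have : ((l : ℝ) + 2) ≤ i := by exact_mod_cast h3
          have h2 : q ≤ i := by linarith
          nlinarith
      -- values of the windows
      have hal : a ((v - (t₀ + (l : ℝ) * η)) / η) = 1 := by
        apply fpt_a1 hT
        rw [le_div_iff₀ hη, hvq]
        nlinarith
      have hbl : (v - (t₀ + ((l + 1 : ℕ) : ℝ) * η)) / η = q - (l + 1) := by
        rw [hvq]; push_cast; field_simp; ring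
      have hbl1 : b ((v - (t₀ + ((l + 1 + 1 : ℕ) : ℝ) * η)) / η) = 1 := by
        apply fpt_b0 hT
        apply div_nonpos_of_nonpos_of_nonneg _ hη.le
        rw [hvq]; push_cast
        nlinarith
      have hw0 := fpt_term (d := d) (t₀ := t₀) hT hη hη' hd hκ hr0 l
      rw [← hv, ← hBc, hal, one_mul, hbl] at hw0
      have h6 : 0 ≤ 6 * Real.exp (t₀ + η) * r := by positivity
      rw [h5d]
      by_cases hlt : l + 1 < m
      · have hsum : ∑ i ∈ range m, Real.exp (t₀ + (i + 1 : ℕ) * η + η) *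
            Pf d κ (Real.exp (t₀ + (i + 1 : ℕ) * η + η))
              (chi a b d η (t₀ + i * η) (t₀ + (i + 1 : ℕ) * η) r ^ 2 * r) =
            ∑ i ∈ ({l, l + 1} : Finset ℕ), Real.exp (t₀ + (i + 1 : ℕ) * η + η) *
            Pf d κ (Real.exp (t₀ + (i + 1 : ℕ) * η + η))
              (chi a b d η (t₀ + i * η) (t₀ + (i + 1 : ℕ) * η) r ^ 2 * r) := by
          symm
          apply Finset.sum_subset
          · intro i hi
            simp only [Finset.mem_insert, Finset.mem_singleton] at hi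
            rw [Finset.mem_range]
            omega
          · intro i _ hi
            simp only [Finset.mem_insert, Finset.mem_singleton, not_or] at hi
            exact hvan i hi.1 hi.2
        rw [hsum, Finset.sum_pair (by omega)]
        have hw1 := fpt_term (d := d) (t₀ := t₀) hT hη hη' hd hκ hr0 (l + 1)
        rw [← hv, ← hBc, hbl1, mul_one, hbl] at hw1
        have hsq := hT.sq (q - (l + 1))
        have hfin : r * Real.exp v * (Bc - 2 * ((5 / 2) / d)) =
            r * Real.exp v * (b (q - (l + 1)) ^ 2 * Bc - (5 / 2) / d) +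
            r * Real.exp v * (a (q - (l + 1)) ^ 2 * Bc - (5 / 2) / d) := by
          have : Bc = (a (q - (l + 1)) ^ 2 + b (q - (l + 1)) ^ 2) * Bc := by rw [hsq, one_mul]
          linear_combination (r * Real.exp v) * this
        rw [hfin]
        linarith
      · have hml : m = l + 1 := by omega
        have hq0 : q - (l + 1) = 0 := by
          have : q ≤ (l : ℝ) + 1 := by
            have h := hqm
            rw [hml] at h
            push_cast at h
            exact h
          linarith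
        have hsum : ∑ i ∈ range m, Real.exp (t₀ + (i + 1 : ℕ) * η + η) *
            Pf d κ (Real.exp (t₀ + (i + 1 : ℕ) * η + η))
              (chi a b d η (t₀ + i * η) (t₀ + (i + 1 : ℕ) * η) r ^ 2 * r) =
            Real.exp (t₀ + (l + 1 : ℕ) * η + η) *
            Pf d κ (Real.exp (t₀ + (l + 1 : ℕ) * η + η))
              (chi a b d η (t₀ + l * η) (t₀ + (l + 1 : ℕ) * η) r ^ 2 * r) := by
          apply Finset.sum_eq_single_of_mem l (Finset.mem_range.mpr hlm)
          intro i hi hil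
          rw [Finset.mem_range] at hi
          exact hvan i hil (by omega)
        rw [hsum]
        rw [hq0, fpt_b0 hT le_rfl] at hw0
        have h7 : r * Real.exp v * (Bc - 2 * ((5 / 2) / d)) ≤
            r * Real.exp v * (1 ^ 2 * Bc - (5 / 2) / d) := by
          apply mul_le_mul_of_nonneg_left _ hre.le
          linarith
        linarith

end Pool.Agent.LTFN
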