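import Pool.Agent.LTFN.Spread

/-!
# [LTFN-FWin] the inequality for one window

The hypothesis `hent` is the entropic inequality (`Pool.Agent.LTHD.entropic`); it is a hypothesis here only because that
module is still being landed.
Let `b² = e / (4 π E)`, `M = E^(d/2)`, `n = ∫ ρ`, `L = ∫ ρ log (M / ρ)`, `S = ∑ DD_j(b)`, `κ = 880 a²`.
`4 π b² = e / E`, `(d/2) log (4 π b²) = d/2 - log M`, `∫ ρ log ρ = n log M - L`. So `hent` says
  (1) `(d/2) n - L + S/20 ≤ b² kin`.
`d log b = (d/2) log (e/(4π)) - log M`, so `spread` says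
  (2) `-L + n (d log(a/16) + (d/2) log(e/(4π)) - log n) ≤ b² kin / 2 + 44 a² S`; with `log n ≤ d log (a/94)` and
  `log(94/16) + log(e/(4π))/2 ≥ 1` (numerically 1.005) the left side is `≥ -L + n d` (if `n = 0` trivial).
`κ * (1) + (2)`: `κ ((d/2) n - L) + n d - L ≤ (κ + 1/2) b² kin`. Divide by `κ b²`, `1/b² = 4 π E / e`.
Numerics: `log 94 - log 16 ≥ 1.77`, `log(4π) ≤ 2.5311`; e.g. prove `exp 2 * (16/94)^2 * (4 π) / exp 1 ≤ 1`, i.e.
`exp 1 * 4 * π * 256 ≤ 8836` (`2.71829 * 12.5664 * 256 = 8744.7`), from `Real.exp_one_lt_d9`, `Real.pi_lt_d4`.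
-/

open Real Finset MeasureTheory
open Pool.Agent.LiebT2 Pool.Agent.LTHD

set_option autoImplicit false

namespace Pool.Agent.LTFN

variable {d k N : ℕ}

private theorem fwin_num : 2 ≤ 2 * (Real.log 94 - Real.log 16) + (1 - Real.log (4 * π)) := by
  have hpi := Real.pi_pos
  have h1 : Real.exp 1 * (4 * π * 256) ≤ 8836 := by
    have he := Real.exp_one_lt_d9
    have hp := Real.pi_lt_d4
    have : Real.exp 1 * (4 * π * 256) ≤ 2.7182818286 * (4 * 3.1416 * 256) := by
      apply mul_le_mul he.le _ (by positivity) (by norm_num)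
      nlinarith
    exact this.trans (by norm_num)
  have h2 := Real.log_le_log (by positivity) h1
  rw [Real.log_mul (Real.exp_pos 1).ne' (by positivity), Real.log_exp,
    Real.log_mul (by positivity) (by norm_num)] at h2
  have h3 : Real.log 8836 = 2 * Real.log 94 := by
    rw [show (8836 : ℝ) = 94 ^ 2 by norm_num, Real.log_pow]
    norm_num
  have h4 : Real.log 256 = 2 * Real.log 16 := by
    rw [show (256 : ℝ) = 16 ^ 2 by norm_num, Real.log_pow]
    norm_num
  rw [h3, h4] at h2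
  linarith

private theorem fwin_alg {n L S T b2 κ E D e π' : ℝ} (hκ : 0 < κ) (hb2 : 0 < b2) (hE : 0 < E)
    (he : 0 < e) (hπ : 0 < π') (hD : 0 < D) (hbE : 4 * π' * b2 * E = e)
    (h1 : D / 2 * n - L + 1 / 20 * S ≤ b2 * T)
    (h2 : -L + n * D ≤ 1 / 2 * b2 * T + κ / 20 * S) :
    2 * π' * D / e * E * ((1 + 2 / κ) * n - (1 + 1 / κ) * (2 / D) * L)
      ≤ (1 + 1 / (2 * κ)) * T := by
  have h3 : κ * (D / 2 * n - L) + (n * D - L) ≤ (κ + 1 / 2) * (b2 * T) := by
    have := mul_le_mul_of_nonneg_left h1 hκ.le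
    nlinarith
  have h4 : 2 * π' * D / e * E * ((1 + 2 / κ) * n - (1 + 1 / κ) * (2 / D) * L) =
      (κ * (D / 2 * n - L) + (n * D - L)) / (κ * b2) := by
    rw [← hbE]
    field_simp
    ring
  rw [h4, div_le_iff₀ (by positivity)]
  calc κ * (D / 2 * n - L) + (n * D - L) ≤ (κ + 1 / 2) * (b2 * T) := h3
    _ = (1 + 1 / (2 * κ)) * T * (κ * b2) := by
        field_simp

theorem fwin {v : Fin N → (Fin d → ℝ) → ℂ} (hd : 1 ≤ d) (hv : Fam v)
    (hent : ∀ b : ℝ, 0 < b → (d : ℝ) / 2 * Real.log (4 * π * b ^ 2) * (∫ y, rho v y)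
      + (∫ y, rho v y * Real.log (rho v y)) + 1 / 20 * (∑ j, DD v j b) ≤ b ^ 2 * kin v)
    {E : ℝ} (hE : 0 < E) {a : ℝ} (ha : 1 ≤ a) (hN : (∫ x, rho v x) ≤ (a / 94) ^ d) :
    2 * π * d / Real.exp 1 * E * ((1 + 2 / (880 * a ^ 2)) * (∫ x, rho v x)
      - (1 + 1 / (880 * a ^ 2)) * (2 / (d : ℝ)) *
        (∫ x, rho v x * Real.log (E ^ ((d : ℝ) / 2) / rho v x)))
    ≤ (1 + 1 / (2 * (880 * a ^ 2))) * kin v := by
  have hpi := Real.pi_pos
  have hd0 : (0 : ℝ) < d := by exact_mod_cast hd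
  have hM : 0 < E ^ ((d : ℝ) / 2) := Real.rpow_pos_of_pos hE _
  have hlogM : Real.log (E ^ ((d : ℝ) / 2)) = (d : ℝ) / 2 * Real.log E := Real.log_rpow hE _
  -- the number b
  obtain ⟨b, hb⟩ : ∃ b : ℝ, b = √(Real.exp 1 / (4 * π * E)) := ⟨_, rfl⟩
  have hb2 : b ^ 2 = Real.exp 1 / (4 * π * E) := by
    rw [hb, Real.sq_sqrt (by positivity)]
  have hb0 : 0 < b := by
    rw [hb]
    exact Real.sqrt_pos.mpr (by positivity)
  have hbE : 4 * π * b ^ 2 * E = Real.exp 1 := by
    rw [hb2]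
    field_simp
  have h4b : Real.log (4 * π * b ^ 2) = 1 - Real.log E := by
    have : 4 * π * b ^ 2 = Real.exp 1 / E := by rw [← hbE]; field_simp
    rw [this, Real.log_div (Real.exp_pos 1).ne' hE.ne', Real.log_exp]
  have hlogb : Real.log b = (1 - Real.log (4 * π) - Real.log E) / 2 := by
    have h1 : Real.log (b ^ 2) = 2 * Real.log b := by rw [Real.log_pow]; norm_num
    have h2 : Real.log (b ^ 2) = 1 - (Real.log (4 * π) + Real.log E) := by
      rw [hb2, Real.log_div (Real.exp_pos 1).ne' (by positivity), Real.log_exp,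
        Real.log_mul (by positivity) hE.ne']
    linarith
  -- the integral with the logarithm
  have hn0 : 0 ≤ ∫ x, rho v x := integral_nonneg fun x => by
    show 0 ≤ rho v x
    unfold Pool.Agent.LiebT2.rho
    positivity
  have hint1 : Integrable (fun x => rho v x * Real.log (E ^ ((d : ℝ) / 2))) :=
    (integrable_rho hv).mul_const _
  have hint2 : Integrable (fun x => rho v x * Real.log (rho v x)) :=
    integrable_comp_rho hv Real.continuous_mul_log (by simp)
  have hL : (∫ x, rho v x * Real.log (E ^ ((d : ℝ) / 2) / rho v x)) =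
      (∫ x, rho v x) * Real.log (E ^ ((d : ℝ) / 2)) - ∫ x, rho v x * Real.log (rho v x) := by
    rw [← integral_mul_const, ← integral_sub hint1 hint2]
    apply integral_congr_ae
    filter_upwards with x
    exact mul_log_div hM _
  obtain ⟨n, hn⟩ : ∃ n : ℝ, n = ∫ x, rho v x := ⟨_, rfl⟩
  obtain ⟨I, hI⟩ : ∃ I : ℝ, I = ∫ x, rho v x * Real.log (rho v x) := ⟨_, rfl⟩
  obtain ⟨S, hS⟩ : ∃ S : ℝ, S = ∑ j, DD v j b := ⟨_, rfl⟩
  have e1 := hent b hb0
  have e2 := spread hv hb0 ha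
  rw [h4b, ← hn, ← hI, ← hS] at e1
  rw [← hn, ← hI, ← hS] at e2
  rw [hL, ← hn, ← hI]
  rw [← hn] at hN hn0
  rw [hlogM]
  obtain ⟨L, hLL⟩ : ∃ L : ℝ, L = n * ((d : ℝ) / 2 * Real.log E) - I := ⟨_, rfl⟩
  rw [← hLL]
  have hκ : (0 : ℝ) < 880 * a ^ 2 := by positivity
  -- (1)
  have f1 : (d : ℝ) / 2 * n - L + 1 / 20 * S ≤ b ^ 2 * kin v := by
    rw [hLL]
    calc _ = (d : ℝ) / 2 * (1 - Real.log E) * n + I + 1 / 20 * S := by ring
      _ ≤ _ := e1
  -- (2)
  have hkey : n * (d : ℝ) ≤ n * (d * Real.log (a * b / 16) + (d : ℝ) / 2 * Real.log E - Real.log n) := by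
    rcases hn0.eq_or_lt with h0 | hpos
    · rw [← h0]; simp
    · apply mul_le_mul_of_nonneg_left _ hn0
      have hlogn : Real.log n ≤ d * (Real.log a - Real.log 94) := by
        have h5 := Real.log_le_log hpos hN
        rw [Real.log_pow, Real.log_div (by positivity) (by norm_num)] at h5
        exact h5
      have hlab : Real.log (a * b / 16) = Real.log a + Real.log b - Real.log 16 := by
        rw [Real.log_div (by positivity) (by norm_num), Real.log_mul (by positivity) hb0.ne']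
      rw [hlab, hlogb]
      have hnum := fwin_num
      have h6 : (d : ℝ) * 2 ≤ d * (2 * (Real.log 94 - Real.log 16) + (1 - Real.log (4 * π))) :=
        mul_le_mul_of_nonneg_left hnum hd0.le
      nlinarith
  have f2 : -L + n * (d : ℝ) ≤ 1 / 2 * b ^ 2 * kin v + 880 * a ^ 2 / 20 * S := by
    have h7 : 880 * a ^ 2 / 20 * S = 44 * a ^ 2 * S := by ring
    rw [h7]
    refine le_trans ?_ e2
    rw [hLL]
    nlinarith
  exact fwin_alg hκ (by positivity) hE (Real.exp_pos 1) hpi hd0 hbE f1 f2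

end Pool.Agent.LTFN
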