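import Pool.Agent.LTFN.Defs

/-!
# [LTFN-KcUp] upper bound for the semiclassical constant

`Kc d = d/(d+2) (2π)² / om(d)^(2/d)`, `om d = √π^d / Γ(d/2+1)`, so `om(d)^(2/d) = π / Γ(d/2+1)^(2/d)` and
`Kc d = d/(d+2) 4 π Γ(d/2+1)^(2/d)`. With `c = 1 - 1/x`, `x = d/2`, the pointwise bound
`t^x exp(-c t) ≤ (x/(c e))^x` gives `Γ(x+1) ≤ x (x/(c e))^x`, so
`Kc d ≤ (2 π d / e) (d/(d+2)) (d/(d-2)) (d/2)^(2/d)`, and the last three factors are `≤ 1 + 3 log d / d` for large `d`.
-/

open Real Finset MeasureTheory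
open Pool.Agent.LiebT2 Pool.Agent.LTHD

set_option autoImplicit false

namespace Pool.Agent.LTFN

private theorem kcu_pt {x c t : ℝ} (hx : 0 < x) (hc : 0 < c) (ht : 0 < t) :
    Real.exp (-t) * t ^ x ≤ (x / (c * Real.exp 1)) ^ x * Real.exp (-(1 - c) * t) := by
  have h1 : Real.log (t * c / x) ≤ t * c / x - 1 :=
    Real.log_le_sub_one_of_pos (by positivity)
  have h2 : Real.log (t * c / x) = Real.log t + Real.log c - Real.log x := by
    rw [Real.log_div (by positivity) hx.ne', Real.log_mul ht.ne' hc.ne']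
  have h3 : x * (Real.log t + Real.log c - Real.log x) ≤ t * c - x := by
    have := mul_le_mul_of_nonneg_left (h2 ▸ h1) hx.le
    calc x * (Real.log t + Real.log c - Real.log x) ≤ x * (t * c / x - 1) := this
      _ = t * c - x := by field_simp
  have h4 : Real.log (x / (c * Real.exp 1)) = Real.log x - Real.log c - 1 := by
    rw [Real.log_div hx.ne' (by positivity), Real.log_mul hc.ne' (Real.exp_pos 1).ne',
      Real.log_exp]
    ring
  rw [Real.rpow_def_of_pos ht, Real.rpow_def_of_pos (by positivity : 0 < x / (c * Real.exp 1)),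
    ← Real.exp_add, ← Real.exp_add, h4]
  apply Real.exp_le_exp.2
  nlinarith

private theorem kcu_gamma {x : ℝ} (hx : 1 < x) :
    Real.Gamma (x + 1) ≤ (x / ((1 - 1 / x) * Real.exp 1)) ^ x * x := by
  have hx0 : 0 < x := by linarith
  set c : ℝ := 1 - 1 / x with hc
  have hc0 : 0 < c := by
    rw [hc, sub_pos, div_lt_one hx0]
    exact hx
  have hc1 : 1 - c = 1 / x := by rw [hc]; ring
  rw [Real.Gamma_eq_integral (by linarith)]
  have e1 : x + 1 - 1 = x := by ring
  rw [e1]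
  have hpos : 0 < 1 - c := by rw [hc1]; positivity
  have hi : IntegrableOn (fun t : ℝ => (x / (c * Real.exp 1)) ^ x * Real.exp (-(1 - c) * t))
      (Set.Ioi 0) := by
    apply Integrable.const_mul
    exact exp_neg_integrableOn_Ioi 0 hpos
  have hg : IntegrableOn (fun t : ℝ => Real.exp (-t) * t ^ x) (Set.Ioi 0) := by
    have := Real.GammaIntegral_convergent (s := x + 1) (by linarith)
    rwa [e1] at this
  calc ∫ t in Set.Ioi 0, Real.exp (-t) * t ^ x
      ≤ ∫ t in Set.Ioi 0, (x / (c * Real.exp 1)) ^ x * Real.exp (-(1 - c) * t) := by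
        apply setIntegral_mono_on hg hi measurableSet_Ioi
        intro t ht
        exact kcu_pt hx0 hc0 ht
    _ = (x / (c * Real.exp 1)) ^ x * x := by
        rw [integral_const_mul]
        congr 1
        have := integral_exp_mul_Ioi (a := -(1 - c)) (by linarith) 0
        rw [this, hc1]
        simp

private theorem kcu_eq {d : ℕ} (hd : 0 < d) :
    Kc d = (d : ℝ) / ((d : ℝ) + 2) * (4 * π) * (Real.Gamma ((d : ℝ) / 2 + 1)) ^ (2 / (d : ℝ)) := by
  have hd' : (0 : ℝ) < d := by exact_mod_cast hd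
  have hG : 0 < Real.Gamma ((d : ℝ) / 2 + 1) := Real.Gamma_pos_of_pos (by positivity)
  unfold Kc om
  have h1 : (√π ^ d) ^ (2 / (d : ℝ)) = π := by
    rw [← Real.rpow_natCast, ← Real.rpow_mul (Real.sqrt_nonneg _),
      show (d : ℝ) * (2 / (d : ℝ)) = 2 by field_simp, Real.rpow_two, Real.sq_sqrt pi_pos.le]
  rw [Real.div_rpow (by positivity) hG.le, h1]
  have : 0 < (Real.Gamma ((d : ℝ) / 2 + 1)) ^ (2 / (d : ℝ)) := Real.rpow_pos_of_pos hG _
  have := pi_pos
  field_simp
  ring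

private theorem kcu_main {d : ℕ} (hd : 3 ≤ d) :
    Kc d ≤ 2 * π * d / Real.exp 1 * ((d : ℝ) / ((d : ℝ) + 2) * ((d : ℝ) / ((d : ℝ) - 2)) *
      Real.exp (2 / (d : ℝ) * Real.log ((d : ℝ) / 2))) := by
  have hd' : (3 : ℝ) ≤ d := by exact_mod_cast hd
  have hx : 1 < (d : ℝ) / 2 := by linarith
  have hG : 0 < Real.Gamma ((d : ℝ) / 2 + 1) := Real.Gamma_pos_of_pos (by positivity)
  have h1 := kcu_gamma hx
  set x : ℝ := (d : ℝ) / 2 with hxd
  have hx0 : 0 < x := by linarith
  have hdx : (d : ℝ) = 2 * x := by rw [hxd]; ring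
  have hc0 : 0 < 1 - 1 / x := by
    rw [sub_pos, div_lt_one hx0]
    exact hx
  have hb : 0 < x / ((1 - 1 / x) * Real.exp 1) := by positivity
  have h2 : (Real.Gamma (x + 1)) ^ (2 / (d : ℝ)) ≤
      x / ((1 - 1 / x) * Real.exp 1) * Real.exp (2 / (d : ℝ) * Real.log x) := by
    have e : 2 / (d : ℝ) = 1 / x := by rw [hdx]; field_simp
    calc (Real.Gamma (x + 1)) ^ (2 / (d : ℝ))
        ≤ ((x / ((1 - 1 / x) * Real.exp 1)) ^ x * x) ^ (2 / (d : ℝ)) :=
          Real.rpow_le_rpow hG.le h1 (by positivity)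
      _ = x / ((1 - 1 / x) * Real.exp 1) * Real.exp (2 / (d : ℝ) * Real.log x) := by
          rw [Real.mul_rpow (by positivity) hx0.le, e, ← Real.rpow_mul hb.le,
            mul_one_div_cancel hx0.ne', Real.rpow_one, Real.rpow_def_of_pos hx0]
          congr 2
          ring
  rw [kcu_eq (by omega)]
  have hE := Real.exp_pos (2 / (d : ℝ) * Real.log x)
  calc (d : ℝ) / ((d : ℝ) + 2) * (4 * π) * (Real.Gamma (x + 1)) ^ (2 / (d : ℝ))
      ≤ (d : ℝ) / ((d : ℝ) + 2) * (4 * π) *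
        (x / ((1 - 1 / x) * Real.exp 1) * Real.exp (2 / (d : ℝ) * Real.log x)) :=
        mul_le_mul_of_nonneg_left h2 (by positivity)
    _ = _ := by
        have hx1 : 0 < x - 1 := by linarith
        have e1 : x / ((1 - 1 / x) * Real.exp 1) = x * (x / (x - 1)) / Real.exp 1 := by
          have := (Real.exp_pos 1).ne'
          have : 1 - 1 / x = (x - 1) / x := by field_simp
          rw [this]
          field_simp
        rw [e1]
        have e2 : (d : ℝ) / ((d : ℝ) - 2) = x / (x - 1) := by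
          rw [hdx, show 2 * x - 2 = 2 * (x - 1) by ring, mul_div_mul_left _ _ two_ne_zero]
        rw [e2]
        have e3 : 2 * π * (d : ℝ) = 4 * π * x := by rw [hdx]; ring
        rw [e3]
        ring

private theorem kcu_fin {d L l : ℝ} (hd : 3 ≤ d) (hl : 1 ≤ l) (hL : L = l / d) (hL2 : L ≤ 1 / 100) :
    d / (d + 2) * (d / (d - 2)) * Real.exp (2 * L) ≤ 1 + 3 * L := by
  have hd0 : 0 < d := by linarith
  have hL0 : 0 < L := by rw [hL]; positivity
  have h1 : Real.exp (2 * L) ≤ 1 + 2 * L + (2 * L) ^ 2 := by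
    have := Real.abs_exp_sub_one_sub_id_le (x := 2 * L) (by rw [abs_of_pos (by linarith)]; linarith)
    have := (abs_le.1 this).2
    linarith
  have h2 : d / (d + 2) * (d / (d - 2)) ≤ 1 + 8 * L ^ 2 := by
    have h3 : 1 / d ≤ L := by
      rw [hL]
      gcongr
    have h4 : 1 / d ^ 2 ≤ L ^ 2 := by
      have : (1 / d) ^ 2 ≤ L ^ 2 := by gcongr
      calc 1 / d ^ 2 = (1 / d) ^ 2 := by ring
        _ ≤ _ := this
    have h5 : d / (d + 2) * (d / (d - 2)) ≤ 1 + 8 * (1 / d ^ 2) := by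
      have h6 : 0 < (d + 2) * (d - 2) := by nlinarith
      rw [div_mul_div_comm, div_le_iff₀ h6]
      have h7 : (1 + 8 * (1 / d ^ 2)) * ((d + 2) * (d - 2)) = d * d + (4 * d ^ 2 - 32) / d ^ 2 := by
        field_simp
        ring
      rw [h7]
      have : 0 ≤ (4 * d ^ 2 - 32) / d ^ 2 := div_nonneg (by nlinarith) (by positivity)
      linarith
    linarith
  have h3 : 0 ≤ Real.exp (2 * L) := (Real.exp_pos _).le
  calc d / (d + 2) * (d / (d - 2)) * Real.exp (2 * L)
      ≤ (1 + 8 * L ^ 2) * (1 + 2 * L + (2 * L) ^ 2) := by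
        apply mul_le_mul h2 h1 h3 (by positivity)
    _ ≤ 1 + 3 * L := by
        have h4 : L ^ 2 ≤ L * (1 / 100) := by nlinarith
        have h5 : L ^ 3 ≤ L * (1 / 100) := by nlinarith [mul_nonneg hL0.le (sq_nonneg L)]
        have h6 : L ^ 4 ≤ L * (1 / 100) := by nlinarith [mul_nonneg hL0.le (sq_nonneg L), mul_nonneg (sq_nonneg L) (sq_nonneg L)]
        nlinarith

theorem Kc_up : ∃ d₀ : ℕ, ∀ d : ℕ, d₀ ≤ d →
    Kc d ≤ 2 * π * d / Real.exp 1 * (1 + 3 * Real.log d / d) := by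
  have ht : Filter.Tendsto (fun d : ℕ => Real.log (d : ℝ) / (d : ℝ)) Filter.atTop (nhds 0) :=
    (Real.isLittleO_log_id_atTop.tendsto_div_nhds_zero).comp tendsto_natCast_atTop_atTop
  have h1 : ∀ᶠ d : ℕ in Filter.atTop, Real.log (d : ℝ) / (d : ℝ) ≤ 1 / 100 :=
    ht.eventually (ge_mem_nhds (by norm_num)) 
  obtain ⟨D, hD⟩ := Filter.eventually_atTop.1 h1
  refine ⟨max D 3, fun d hd => ?_⟩
  have hd3 : 3 ≤ d := le_trans (le_max_right _ _) hd
  have hd3' : (3 : ℝ) ≤ d := by exact_mod_cast hd3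
  have hL := hD d (le_trans (le_max_left _ _) hd)
  have hl : 1 ≤ Real.log (d : ℝ) := by
    rw [Real.le_log_iff_exp_le (by linarith)]
    have := Real.exp_one_lt_d9
    linarith
  have h2 := kcu_fin hd3' hl rfl hL
  refine (kcu_main hd3).trans ?_
  apply mul_le_mul_of_nonneg_left _ (by positivity)
  have h3 : Real.exp (2 / (d : ℝ) * Real.log ((d : ℝ) / 2)) ≤
      Real.exp (2 * (Real.log (d : ℝ) / d)) := by
    apply Real.exp_le_exp.2
    have : Real.log ((d : ℝ) / 2) ≤ Real.log d :=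
      Real.log_le_log (by linarith) (by linarith)
    calc 2 / (d : ℝ) * Real.log ((d : ℝ) / 2) ≤ 2 / (d : ℝ) * Real.log d :=
          mul_le_mul_of_nonneg_left this (by positivity)
      _ = _ := by ring
  have h4 : 0 ≤ (d : ℝ) / ((d : ℝ) + 2) * ((d : ℝ) / ((d : ℝ) - 2)) := by
    have : 0 < (d : ℝ) - 2 := by linarith
    positivity
  calc _ ≤ (d : ℝ) / ((d : ℝ) + 2) * ((d : ℝ) / ((d : ℝ) - 2)) *
        Real.exp (2 * (Real.log (d : ℝ) / d)) := mul_le_mul_of_nonneg_left h3 h4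
    _ ≤ 1 + 3 * (Real.log (d : ℝ) / d) := h2
    _ = _ := by ring

end Pool.Agent.LTFN
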