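import Pool.Agent.LTFN.Defs

/-!
# [LTFN-Sh] the functions `sh1 g`, `shd F j`

`F` is Lipschitz with compact support. `F x - F (x + s e)` is jointly continuous in `(s, x)`; for `|s| ≤ S` it vanishes
for `x` outside a fixed ball, so `shd F j` is continuous (e.g. `continuous_of_dominated`, or
`continuous_parametric_integral_of_continuous` on a compact set; continuity is local in `s`).
`(F x - F (x + s e))² ≤ K² s²` (`‖Pi.single j s‖ = |s|`), and for `|s| ≤ 1` the integrand is supported in a fixed ball: so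
`≤ C s²`. For `|s| ≥ 1` use `(x - y)² ≤ 2 x² + 2 y²`: `shd ≤ 4 ∫ F² ≤ 4 ∫ F² s²`.
Interval integrability of `shd F j s / s` on `(0, A)`: measurable, and bounded by `C |s|`.
-/

open Real Finset MeasureTheory
open Pool.Agent.LiebT2 Pool.Agent.LTHD

set_option autoImplicit false

namespace Pool.Agent.LTFN

variable {d k N : ℕ}

theorem sh1_nonneg (g : ℝ → ℝ) (s : ℝ) : 0 ≤ sh1 g s := integral_nonneg fun _ => sq_nonneg _

theorem shd_nonneg (F : (Fin d → ℝ) → ℝ) (j : Fin d) (s : ℝ) : 0 ≤ shd F j s :=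
  integral_nonneg fun _ => sq_nonneg _

/-! ### general facts -/

section helper23_Sh

variable {E : Type*} [NormedAddCommGroup E] [MeasurableSpace E] [BorelSpace E] [ProperSpace E]
  {μ : Measure E} [IsFiniteMeasureOnCompacts μ]

omit [MeasurableSpace E] [BorelSpace E] [ProperSpace E] in
private theorem helper23_Sh_ball {F : E → ℝ} (hs : HasCompactSupport F) :
    ∃ R : ℝ, ∀ x, R < ‖x‖ → F x = 0 := by
  obtain ⟨R, hR⟩ := hs.isBounded.subset_closedBall (0 : E)
  refine ⟨R, fun x hx => ?_⟩
  by_contra h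
  have h1 : x ∈ tsupport F := subset_tsupport F h
  have h2 := hR h1
  rw [mem_closedBall_zero_iff] at h2
  linarith

private theorem helper23_Sh_cont {F : E → ℝ} {K : NNReal} (hF : LipschitzWith K F)
    (hs : HasCompactSupport F) {τ : ℝ → E} (hτ : Continuous τ) (hτn : ∀ s, ‖τ s‖ ≤ |s|) :
    Continuous (fun s => ∫ x, (F x - F (x + τ s)) ^ 2 ∂μ) := by
  obtain ⟨R, hR⟩ := helper23_Sh_ball hs
  obtain ⟨M, hM⟩ := hF.continuous.bounded_above_of_compact_support hs
  have hM0 : 0 ≤ M := (norm_nonneg _).trans (hM 0)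
  rw [continuous_iff_continuousAt]
  intro s0
  refine continuousAt_of_dominated
    (bound := (Metric.closedBall (0 : E) (R + |s0| + 1)).indicator fun _ => (2 * M) ^ 2)
    ?_ ?_ ?_ ?_
  · refine Filter.Eventually.of_forall fun s => ?_
    refine Continuous.aestronglyMeasurable ?_
    exact (hF.continuous.sub (hF.continuous.comp (continuous_id.add continuous_const))).pow 2
  · have h1 : ∀ᶠ s in nhds s0, |s| < |s0| + 1 :=
      (continuous_abs.tendsto s0).eventually (gt_mem_nhds (by linarith))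
    filter_upwards [h1] with s h2
    refine Filter.Eventually.of_forall fun x => ?_
    by_cases hx : x ∈ Metric.closedBall (0 : E) (R + |s0| + 1)
    · rw [Set.indicator_of_mem hx, norm_pow, Real.norm_eq_abs]
      have h3 : |F x - F (x + τ s)| ≤ 2 * M := by
        have h4 := abs_sub (F x) (F (x + τ s))
        have h5 := hM x
        have h6 := hM (x + τ s)
        rw [Real.norm_eq_abs] at h5 h6
        linarith
      gcongr
    · rw [Set.indicator_of_notMem hx]
      rw [mem_closedBall_zero_iff, not_le] at hx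
      have h3 : R < ‖x‖ := by
        have := abs_nonneg s0
        linarith
      have h4 : R < ‖x + τ s‖ := by
        have h5 : ‖x‖ ≤ ‖x + τ s‖ + ‖τ s‖ := by
          have := norm_sub_le (x + τ s) (τ s)
          rwa [add_sub_cancel_right] at this
        have h6 := hτn s
        linarith
      rw [hR x h3, hR _ h4]
      simp
  · rw [integrable_indicator_iff measurableSet_closedBall]
    exact integrableOn_const (isCompact_closedBall _ _).measure_lt_top.ne
  · refine Filter.Eventually.of_forall fun x => ?_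
    refine Continuous.continuousAt ?_
    exact (continuous_const.sub (hF.continuous.comp (continuous_const.add hτ))).pow 2

private theorem helper23_Sh_le [μ.IsAddRightInvariant] {F : E → ℝ} {K : NNReal}
    (hF : LipschitzWith K F)
    (hs : HasCompactSupport F) {τ : ℝ → E} (hτn : ∀ s, ‖τ s‖ ≤ |s|) :
    ∃ C : ℝ, 0 ≤ C ∧ ∀ s, (∫ x, (F x - F (x + τ s)) ^ 2 ∂μ) ≤ C * s ^ 2 := by
  obtain ⟨R, hR⟩ := helper23_Sh_ball hs
  set B : Set E := Metric.closedBall (0 : E) R with hB
  set φ : E → ℝ := B.indicator fun _ => (1 : ℝ) with hφ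
  have hBm : MeasurableSet B := measurableSet_closedBall
  have hφi : Integrable φ μ := by
    rw [hφ, integrable_indicator_iff hBm]
    exact integrableOn_const (isCompact_closedBall _ _).measure_lt_top.ne
  have hφ0 : ∀ x, 0 ≤ φ x := fun x => Set.indicator_nonneg (fun _ _ => zero_le_one) x
  refine ⟨(K : ℝ) ^ 2 * (2 * ∫ x, φ x ∂μ), by
    have : 0 ≤ ∫ x, φ x ∂μ := integral_nonneg hφ0
    positivity, fun s => ?_⟩
  have h1 : ∀ x, (F x - F (x + τ s)) ^ 2 ≤ ((K : ℝ) ^ 2 * s ^ 2) * (φ x + φ (x + τ s)) := by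
    intro x
    by_cases hx : x ∈ B ∨ x + τ s ∈ B
    · have h2 : 1 ≤ φ x + φ (x + τ s) := by
        rcases hx with hx | hx
        · have h3 : φ x = 1 := Set.indicator_of_mem hx _
          have h4 := hφ0 (x + τ s)
          linarith
        · have h3 : φ (x + τ s) = 1 := Set.indicator_of_mem hx _
          have h4 := hφ0 x
          linarith
      have h3 : |F x - F (x + τ s)| ≤ K * |s| := by
        have h4 := hF.dist_le_mul x (x + τ s)
        rw [Real.dist_eq, dist_eq_norm, sub_add_cancel_left, norm_neg] at h4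
        exact h4.trans (mul_le_mul_of_nonneg_left (hτn s) K.2)
      have h5 : (F x - F (x + τ s)) ^ 2 ≤ (K : ℝ) ^ 2 * s ^ 2 := by
        rw [← sq_abs (F x - F (x + τ s)), ← sq_abs s, ← mul_pow]
        gcongr
      calc (F x - F (x + τ s)) ^ 2 ≤ (K : ℝ) ^ 2 * s ^ 2 := h5
        _ = ((K : ℝ) ^ 2 * s ^ 2) * 1 := (mul_one _).symm
        _ ≤ _ := by gcongr
    · rw [not_or] at hx
      have h3 : R < ‖x‖ := by
        have := hx.1
        rwa [hB, mem_closedBall_zero_iff, not_le] at this
      have h4 : R < ‖x + τ s‖ := by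
        have := hx.2
        rwa [hB, mem_closedBall_zero_iff, not_le] at this
      rw [hR x h3, hR _ h4, sub_zero, zero_pow two_ne_zero]
      have h5 := hφ0 x
      have h6 := hφ0 (x + τ s)
      positivity
  have h2 : Integrable (fun x => φ (x + τ s)) μ := hφi.comp_add_right (τ s)
  have h3 : ∫ x, φ (x + τ s) ∂μ = ∫ x, φ x ∂μ := integral_add_right_eq_self φ (τ s)
  calc ∫ x, (F x - F (x + τ s)) ^ 2 ∂μ
      ≤ ∫ x, ((K : ℝ) ^ 2 * s ^ 2) * (φ x + φ (x + τ s)) ∂μ :=
        integral_mono_of_nonneg (Filter.Eventually.of_forall fun _ => sq_nonneg _)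
          ((hφi.add h2).const_mul _) (Filter.Eventually.of_forall h1)
    _ = (K : ℝ) ^ 2 * (2 * ∫ x, φ x ∂μ) * s ^ 2 := by
        rw [integral_const_mul, integral_add hφi h2, h3]
        ring

end helper23_Sh

private theorem helper23_Sh_intv {G : ℝ → ℝ} (hc : Continuous G) (h0 : ∀ s, 0 ≤ G s)
    (h : ∃ C : ℝ, 0 ≤ C ∧ ∀ s, G s ≤ C * s ^ 2) (A B : ℝ) :
    IntervalIntegrable (fun s => G s / s) volume A B := by
  obtain ⟨C, hC, h1⟩ := h
  have h2 : IntervalIntegrable (fun s : ℝ => C * |s|) volume A B :=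
    (continuous_const.mul continuous_abs).intervalIntegrable A B
  refine h2.mono_fun' ?_ ?_
  · exact (hc.measurable.div measurable_id).aestronglyMeasurable
  · refine Filter.Eventually.of_forall fun s => ?_
    change ‖G s / s‖ ≤ C * |s|
    by_cases hs : s = 0
    · subst hs
      simp
    · rw [Real.norm_eq_abs, abs_div, abs_of_nonneg (h0 s), div_le_iff₀ (abs_pos.2 hs)]
      have h3 := h1 s
      rw [← sq_abs] at h3
      calc G s ≤ C * |s| ^ 2 := h3
        _ = C * |s| * |s| := by ring

private theorem helper23_Sh_single (j : Fin d) : Continuous (fun s : ℝ => (Pi.single j s : Fin d → ℝ)) :=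
  continuous_single (A := fun _ : Fin d => ℝ) j

private theorem helper23_Sh_norm (j : Fin d) (s : ℝ) : ‖(Pi.single j s : Fin d → ℝ)‖ ≤ |s| := by
  rw [Pi.norm_single, Real.norm_eq_abs]

theorem sh1_cont {g : ℝ → ℝ} {K : NNReal} (hg : LipschitzWith K g) (hs : HasCompactSupport g) :
    Continuous (sh1 g) :=
  helper23_Sh_cont (μ := volume) hg hs continuous_id fun _ => le_rfl

theorem sh1_le {g : ℝ → ℝ} {K : NNReal} (hg : LipschitzWith K g) (hs : HasCompactSupport g) :
    ∃ C : ℝ, 0 ≤ C ∧ ∀ s, sh1 g s ≤ C * s ^ 2 :=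
  helper23_Sh_le (μ := volume) hg hs (τ := fun s : ℝ => s) fun _ => le_rfl

theorem sh1_intv {g : ℝ → ℝ} {K : NNReal} (hg : LipschitzWith K g) (hs : HasCompactSupport g)
    (A B : ℝ) : IntervalIntegrable (fun s => sh1 g s / s) volume A B :=
  helper23_Sh_intv (sh1_cont hg hs) (sh1_nonneg g) (sh1_le hg hs) A B

theorem shd_cont {F : (Fin d → ℝ) → ℝ} {K : NNReal} (hF : LipschitzWith K F)
    (hs : HasCompactSupport F) (j : Fin d) : Continuous (shd F j) :=
  helper23_Sh_cont (μ := volume) hF hs (helper23_Sh_single j) (helper23_Sh_norm j)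

theorem shd_le {F : (Fin d → ℝ) → ℝ} {K : NNReal} (hF : LipschitzWith K F)
    (hs : HasCompactSupport F) (j : Fin d) : ∃ C : ℝ, 0 ≤ C ∧ ∀ s, shd F j s ≤ C * s ^ 2 :=
  helper23_Sh_le (μ := volume) hF hs (helper23_Sh_norm j)

theorem shd_intv {F : (Fin d → ℝ) → ℝ} {K : NNReal} (hF : LipschitzWith K F)
    (hs : HasCompactSupport F) (j : Fin d) (A B : ℝ) :
    IntervalIntegrable (fun s => shd F j s / s) volume A B :=
  helper23_Sh_intv (shd_cont hF hs j) (shd_nonneg F j) (shd_le hF hs j) A B

end Pool.Agent.LTFN
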