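import Pool.Agent.LTFN.Sh

/-!
# [LTFN-HB] bounds for `Hs v j s = ‖√ρ - √ρ(· + s e_j)‖²`

`√ρ x = ‖(v_n x)_n‖` in `ℓ²`: it is Lipschitz because `x ↦ (v_n x)_n` is `C¹` with compact support (reverse triangle
inequality; e.g. `(√ρ x - √ρ y)² ≤ ∑ ‖v_n x - v_n y‖²`), same support. Note `Hs v j s = shd (fun x => √(rho v x)) j s` by `rfl`.
* `Hs_le_kinj`: `(√ρ(x) - √ρ(x + s e_j))² ≤ ∑ ‖v_n (x + s e_j) - v_n x‖² ≤ |s| |∫_0^s ∑ ‖∂_j v_n (x + t e_j)‖² dt|`,
  integrate in `x` (translation invariance).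
* evenness `Hs v j (-s) = Hs v j s` by translation.
* `Hs_le_DD`: for `0 ≤ s ≤ b` and every `s'`: `Hs s ≤ 2 Hs s' + 2 Hs (s - s')` (`(x + y)² ≤ 2 x² + 2 y²`, translation);
  average over `s' ∈ [0, b]`: `Hs s ≤ 2 b⁻¹ ∫_0^b Hs + 2 b⁻¹ ∫_{s-b}^s Hs ≤ 4 DD` as `DD = b⁻¹ ∫_{-b}^b Hs`.
* `Hs_steps`: `√ρ(x) - √ρ(x + m s e_j)` is a sum of `m` differences; Cauchy-Schwarz (or Minkowski) and translation.
* `int_Hs_le`: on `(0, b/2)` use `Hs ≤ s² kinj`, on `(b/2, b)` use `Hs ≤ 4 DD`, on `(b, a b)` use `m = ⌈s/b⌉ ≤ 2 s / b`, so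
  `Hs s ≤ m² Hs (s/m) ≤ 16 (s/b)² DD`. Total `≤ b²/8 kinj + (4 log 2 + 8 a²) DD ≤ b²/8 kinj + 11 a² DD`.
* `sum_kinj`: `kin v = ∫ ∑_n ∑_j = ∑_j ∫ ∑_n` (continuous with compact support).
-/

open Real Finset MeasureTheory
open Pool.Agent.LiebT2 Pool.Agent.LTHD

set_option autoImplicit false

namespace Pool.Agent.LTFN

variable {d k N : ℕ}

/-- the vector of values -/
private noncomputable def hb_V (v : Fin N → (Fin d → ℝ) → ℂ) (x : Fin d → ℝ) :
    EuclideanSpace ℂ (Fin N) := WithLp.toLp 2 (fun n => v n x)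

private theorem hb_norm_V (v : Fin N → (Fin d → ℝ) → ℂ) (x : Fin d → ℝ) :
    ‖hb_V v x‖ = √(rho v x) := by
  rw [EuclideanSpace.norm_eq]
  rfl

private theorem hb_contDiff_V {v : Fin N → (Fin d → ℝ) → ℂ} (hv : Fam v) :
    ContDiff ℝ 1 (hb_V v) := by
  have h : ContDiff ℝ 1 (fun x : Fin d → ℝ => fun n => v n x) := contDiff_pi.2 fun n => hv.smooth n
  exact (PiLp.continuousLinearEquiv 2 ℝ (fun _ : Fin N => ℂ)).symm.contDiff.comp h

private theorem hb_cs_V {v : Fin N → (Fin d → ℝ) → ℂ} (hv : Fam v) :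
    HasCompactSupport (hb_V v) := by
  obtain ⟨R, _, hR⟩ := hv.van
  apply HasCompactSupport.intro (isCompact_closedBall (0 : Fin d → ℝ) R)
  intro y hy
  rw [mem_closedBall_zero_iff, not_le] at hy
  have : (fun n => v n y) = 0 := by
    funext n
    exact (hR n).1 y hy.le
  unfold hb_V
  rw [this]
  rfl

theorem lip_sqrt_rho {v : Fin N → (Fin d → ℝ) → ℂ} (hv : Fam v) :
    ∃ K : NNReal, LipschitzWith K (fun x => √(rho v x)) := by
  obtain ⟨K, hK⟩ := ContDiff.lipschitzWith_of_hasCompactSupport (hb_cs_V hv) (hb_contDiff_V hv)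
    one_ne_zero
  refine ⟨K, ?_⟩
  have h1 : (fun x => √(rho v x)) = fun x => ‖hb_V v x‖ := by
    funext x
    exact (hb_norm_V v x).symm
  rw [h1]
  have h2 := (lipschitzWith_one_norm (E := EuclideanSpace ℂ (Fin N))).comp hK
  rw [one_mul] at h2
  exact h2

theorem cs_sqrt_rho {v : Fin N → (Fin d → ℝ) → ℂ} (hv : Fam v) :
    HasCompactSupport (fun x => √(rho v x)) := by
  obtain ⟨R, _, hR⟩ := hv.van
  apply HasCompactSupport.intro (isCompact_closedBall (0 : Fin d → ℝ) R)
  intro y hy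
  rw [mem_closedBall_zero_iff, not_le] at hy
  rw [van_rho (fun n => (hR n).1) y hy.le, Real.sqrt_zero]

private theorem hb_sq_le (v : Fin N → (Fin d → ℝ) → ℂ) (x y : Fin d → ℝ) :
    (√(rho v x) - √(rho v y)) ^ 2 ≤ ∑ n, ‖v n y - v n x‖ ^ 2 := by
  rw [← hb_norm_V v x, ← hb_norm_V v y]
  have h := abs_norm_sub_norm_le (hb_V v x) (hb_V v y)
  have h2 : ‖hb_V v x - hb_V v y‖ ^ 2 = ∑ n, ‖v n y - v n x‖ ^ 2 := by
    rw [EuclideanSpace.norm_eq, Real.sq_sqrt (Finset.sum_nonneg fun _ _ => sq_nonneg _)]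
    apply Finset.sum_congr rfl
    intro n _
    rw [norm_sub_rev]
    rfl
  rw [← h2, ← sq_abs]
  exact pow_le_pow_left₀ (abs_nonneg _) h 2

private theorem hb_cont_single (j : Fin d) : Continuous (fun z : ℝ => (Pi.single j z : Fin d → ℝ)) := by
  refine continuous_pi fun i => ?_
  by_cases h : i = j
  · subst h; simpa using continuous_id'
  · simpa [Pi.single_eq_of_ne h] using continuous_const

private theorem hb_norm_single (j : Fin d) (z : ℝ) : ‖(Pi.single j z : Fin d → ℝ)‖ = |z| := by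
  rw [Pi.norm_single, Real.norm_eq_abs]

/-- integrability on a strip -/
private theorem hb_intprod {G : (Fin d → ℝ) → ℝ} (hG : Continuous G) (hs : HasCompactSupport G)
    (j : Fin d) (s : ℝ) :
    Integrable (fun p : (Fin d → ℝ) × ℝ => G (p.1 + Pi.single j (p.2 * s)))
      ((volume : Measure (Fin d → ℝ)).prod ((volume : Measure ℝ).restrict (Set.Ioc 0 1))) := by
  have hc : Continuous (fun p : (Fin d → ℝ) × ℝ => G (p.1 + Pi.single j (p.2 * s))) := by
    refine hG.comp (continuous_fst.add ?_)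
    exact (hb_cont_single j).comp (continuous_snd.mul continuous_const)
  obtain ⟨R, hR0, hR⟩ : ∃ R : ℝ, 0 < R ∧ ∀ x, R < ‖x‖ → G x = 0 := by
    obtain ⟨R, hR0, hR⟩ := hs.isCompact.isBounded.subset_closedBall_lt 0 (0 : Fin d → ℝ)
    refine ⟨R, hR0, fun x hx => ?_⟩
    by_contra h
    have := hR (subset_tsupport _ (Function.mem_support.2 h))
    rw [mem_closedBall_zero_iff] at this
    linarith
  have hK : IsCompact ((Metric.closedBall (0 : Fin d → ℝ) (R + |s|)) ×ˢ (Set.Icc (0 : ℝ) 1)) :=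
    (isCompact_closedBall _ _).prod isCompact_Icc
  have h1 : IntegrableOn (fun p : (Fin d → ℝ) × ℝ => G (p.1 + Pi.single j (p.2 * s)))
      ((Metric.closedBall (0 : Fin d → ℝ) (R + |s|)) ×ˢ (Set.Icc (0 : ℝ) 1))
      ((volume : Measure (Fin d → ℝ)).prod (volume : Measure ℝ)) :=
    hc.continuousOn.integrableOn_compact hK
  have h2 : IntegrableOn (fun p : (Fin d → ℝ) × ℝ => G (p.1 + Pi.single j (p.2 * s)))
      ((Set.univ : Set (Fin d → ℝ)) ×ˢ (Set.Ioc (0 : ℝ) 1))
      ((volume : Measure (Fin d → ℝ)).prod (volume : Measure ℝ)) := by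
    refine h1.of_forall_sdiff_eq_zero (MeasurableSet.univ.prod measurableSet_Ioc) ?_
    rintro ⟨x, t⟩ ⟨⟨_, ht⟩, hn⟩
    simp only at ht hn ⊢
    apply hR
    have hx : ¬ ‖x‖ ≤ R + |s| := by
      intro hx
      apply hn
      exact ⟨mem_closedBall_zero_iff.2 hx, ht.1.le, ht.2⟩
    rw [not_le] at hx
    have h3 : ‖(Pi.single j (t * s) : Fin d → ℝ)‖ ≤ |s| := by
      rw [hb_norm_single, abs_mul, abs_of_pos ht.1]
      have := mul_le_mul_of_nonneg_right ht.2 (abs_nonneg s)
      linarith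
    have h4 : ‖x‖ ≤ ‖x + Pi.single j (t * s)‖ + ‖(Pi.single j (t * s) : Fin d → ℝ)‖ := by
      have := norm_sub_le (x + Pi.single j (t * s)) (Pi.single j (t * s) : Fin d → ℝ)
      rwa [add_sub_cancel_right] at this
    linarith
  have h3 : ((volume : Measure (Fin d → ℝ)).prod (volume : Measure ℝ)).restrict
      ((Set.univ : Set (Fin d → ℝ)) ×ˢ (Set.Ioc (0 : ℝ) 1))
      = (volume : Measure (Fin d → ℝ)).prod ((volume : Measure ℝ).restrict (Set.Ioc 0 1)) := by
    rw [← Measure.prod_restrict, Measure.restrict_univ]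
  rw [IntegrableOn, h3] at h2
  exact h2

/-- Fubini with translations -/
private theorem hb_fub {G : (Fin d → ℝ) → ℝ} (hG : Continuous G) (hs : HasCompactSupport G)
    (j : Fin d) (s : ℝ) :
    (∫ x : Fin d → ℝ, ∫ t in (0 : ℝ)..1, G (x + Pi.single j (t * s))) = ∫ x, G x := by
  have h := integral_integral_swap (μ := (volume : Measure (Fin d → ℝ)))
    (ν := (volume : Measure ℝ).restrict (Set.Ioc 0 1))
    (f := fun (x : Fin d → ℝ) (t : ℝ) => G (x + (Pi.single j (t * s) : Fin d → ℝ)))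
    (hb_intprod hG hs j s)
  simp only [intervalIntegral.integral_of_le (zero_le_one' ℝ)]
  rw [h]
  have h2 : ∀ t : ℝ, (∫ x : Fin d → ℝ, G (x + Pi.single j (t * s))) = ∫ x, G x := fun t =>
    integral_add_right_eq_self (μ := volume) G _
  simp only [h2]
  simp

private theorem hb_intble {G : (Fin d → ℝ) → ℝ} (hG : Continuous G) (hs : HasCompactSupport G)
    (j : Fin d) (s : ℝ) :
    Integrable (fun x : Fin d → ℝ => ∫ t in (0 : ℝ)..1, G (x + Pi.single j (t * s))) := by
  have h := (hb_intprod hG hs j s).integral_prod_left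
  simp only [intervalIntegral.integral_of_le (zero_le_one' ℝ)]
  exact h

private theorem hb_hasDeriv {v : Fin N → (Fin d → ℝ) → ℂ} (hv : Fam v) (n : Fin N) (j : Fin d)
    (s : ℝ) (x : Fin d → ℝ) (t : ℝ) :
    HasDerivAt (fun t : ℝ => v n (x + Pi.single j (t * s)))
      ((s : ℂ) * fderiv ℝ (v n) (x + Pi.single j (t * s)) (Pi.single j 1)) t := by
  have h1 : HasDerivAt (fun t : ℝ => x + Pi.single j (t * s)) (Pi.single j s : Fin d → ℝ) t := by
    rw [hasDerivAt_pi]
    intro i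
    by_cases h : i = j
    · subst h
      simp only [Pi.add_apply, Pi.single_eq_same]
      have := ((hasDerivAt_id t).mul_const s).const_add (x i)
      simpa using this
    · simp only [Pi.add_apply, Pi.single_eq_of_ne h]
      simpa using hasDerivAt_const t (x i + 0)
  have h2 := ((hv.smooth n).differentiable one_ne_zero
    (x + Pi.single j (t * s))).hasFDerivAt.comp_hasDerivAt t h1
  have h3 : (Pi.single j s : Fin d → ℝ) = s • (Pi.single j 1 : Fin d → ℝ) := by
    rw [← Pi.single_smul']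
    simp
  rw [h3, map_smul] at h2
  have h4 : (s : ℂ) * fderiv ℝ (v n) (x + Pi.single j (t * s)) (Pi.single j 1)
      = s • fderiv ℝ (v n) (x + Pi.single j (t * s)) (Pi.single j 1) := by
    rw [Complex.real_smul]
  rw [h4]
  exact h2

private theorem hb_cs1 {f : ℝ → ℂ} (hf : Continuous f) :
    ‖∫ t in (0 : ℝ)..1, f t‖ ^ 2 ≤ ∫ t in (0 : ℝ)..1, ‖f t‖ ^ 2 := by
  have h1 : ‖∫ t in (0 : ℝ)..1, f t‖ ≤ ∫ t in (0 : ℝ)..1, ‖f t‖ :=
    intervalIntegral.norm_integral_le_integral_norm zero_le_one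
  set c := ∫ t in (0 : ℝ)..1, ‖f t‖ with hc
  have h2 : 0 ≤ ∫ t in (0 : ℝ)..1, (‖f t‖ - c) ^ 2 :=
    intervalIntegral.integral_nonneg zero_le_one fun _ _ => sq_nonneg _
  have i1 : IntervalIntegrable (fun t => ‖f t‖ ^ 2) volume 0 1 := (hf.norm.pow 2).intervalIntegrable _ _
  have i2 : IntervalIntegrable (fun t => 2 * c * ‖f t‖) volume 0 1 :=
    (continuous_const.mul hf.norm).intervalIntegrable _ _
  have i3 : IntervalIntegrable (fun _ : ℝ => c ^ 2) volume 0 1 := continuous_const.intervalIntegrable _ _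
  have h3 : (∫ t in (0 : ℝ)..1, (‖f t‖ - c) ^ 2) = (∫ t in (0 : ℝ)..1, ‖f t‖ ^ 2) - c ^ 2 := by
    have e : (fun t => (‖f t‖ - c) ^ 2) = fun t => ‖f t‖ ^ 2 - 2 * c * ‖f t‖ + c ^ 2 := by
      funext t; ring
    rw [e, intervalIntegral.integral_add (i1.sub i2) i3, intervalIntegral.integral_sub i1 i2,
      intervalIntegral.integral_const_mul, intervalIntegral.integral_const, ← hc]
    simp
    ring
  have h4 : ‖∫ t in (0 : ℝ)..1, f t‖ ^ 2 ≤ c ^ 2 := pow_le_pow_left₀ (norm_nonneg _) h1 2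
  linarith

private theorem hb_pt {v : Fin N → (Fin d → ℝ) → ℂ} (hv : Fam v) (j : Fin d) (s : ℝ)
    (x : Fin d → ℝ) :
    (√(rho v x) - √(rho v (x + Pi.single j s))) ^ 2 ≤
      s ^ 2 * ∫ t in (0 : ℝ)..1,
        ∑ n, ‖fderiv ℝ (v n) (x + Pi.single j (t * s)) (Pi.single j 1)‖ ^ 2 := by
  refine (hb_sq_le v x _).trans ?_
  have hc : ∀ n, Continuous (fun t : ℝ =>
      fderiv ℝ (v n) (x + Pi.single j (t * s)) (Pi.single j 1)) := fun n => by
    refine Continuous.clm_apply ((hv.continuous_fderiv n).comp ?_) continuous_const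
    exact continuous_const.add ((hb_cont_single j).comp (continuous_id.mul continuous_const))
  have hi : ∀ n, IntervalIntegrable (fun t : ℝ =>
      ‖fderiv ℝ (v n) (x + Pi.single j (t * s)) (Pi.single j 1)‖ ^ 2) volume 0 1 := fun n =>
    ((hc n).norm.pow 2).intervalIntegrable _ _
  rw [intervalIntegral.integral_finsetSum (fun n _ => hi n), Finset.mul_sum]
  apply Finset.sum_le_sum
  intro n _
  have h1 : v n (x + Pi.single j s) - v n x = ∫ t in (0 : ℝ)..1,
      (s : ℂ) * fderiv ℝ (v n) (x + Pi.single j (t * s)) (Pi.single j 1) := by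
    rw [intervalIntegral.integral_eq_sub_of_hasDerivAt (fun t _ => hb_hasDeriv hv n j s x t)
      ((continuous_const.mul (hc n)).intervalIntegrable _ _)]
    simp
  rw [h1, intervalIntegral.integral_const_mul, norm_mul, mul_pow, Complex.norm_real,
    Real.norm_eq_abs, sq_abs]
  exact mul_le_mul_of_nonneg_left (hb_cs1 (hc n)) (sq_nonneg _)

private theorem hb_kj_cont {v : Fin N → (Fin d → ℝ) → ℂ} (hv : Fam v) (j : Fin d) :
    Continuous (fun y => ∑ n, ‖fderiv ℝ (v n) y (Pi.single j 1)‖ ^ 2) :=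
  continuous_finsetSum _ fun n _ => (((hv.continuous_fderiv n).clm_apply continuous_const).norm).pow 2

private theorem hb_kj_cs {v : Fin N → (Fin d → ℝ) → ℂ} (hv : Fam v) (j : Fin d) :
    HasCompactSupport (fun y => ∑ n, ‖fderiv ℝ (v n) y (Pi.single j 1)‖ ^ 2) := by
  obtain ⟨R, _, hR⟩ := hv.van
  apply HasCompactSupport.intro (isCompact_closedBall (0 : Fin d → ℝ) R)
  intro y hy
  rw [mem_closedBall_zero_iff, not_le] at hy
  apply Finset.sum_eq_zero
  intro n _
  rw [(hR n).2 y hy.le]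
  simp

private theorem hb_sr_cont {v : Fin N → (Fin d → ℝ) → ℂ} (hv : Fam v) :
    Continuous (fun x => √(rho v x)) := (continuous_rho hv).sqrt

private theorem hb_diff_int {F : (Fin d → ℝ) → ℝ} (hF : Continuous F) (hs : HasCompactSupport F)
    (e e' : Fin d → ℝ) : Integrable (fun x => (F (x + e) - F (x + e')) ^ 2) := by
  have h1 : HasCompactSupport (fun x => F (x + e)) :=
    hs.comp_homeomorph (Homeomorph.addRight e)
  have h2 : HasCompactSupport (fun x => F (x + e')) :=
    hs.comp_homeomorph (Homeomorph.addRight e')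
  have c1 : Continuous (fun x => F (x + e)) := hF.comp (continuous_id.add continuous_const)
  have c2 : Continuous (fun x => F (x + e')) := hF.comp (continuous_id.add continuous_const)
  have h3 : HasCompactSupport (fun x => F (x + e) - F (x + e')) := h1.sub h2
  have h4 : HasCompactSupport (fun x => (F (x + e) - F (x + e')) ^ 2) :=
    h3.comp_left (g := fun r : ℝ => r ^ 2) (zero_pow two_ne_zero)
  have c3 : Continuous (fun x => (F (x + e) - F (x + e')) ^ 2) := (c1.sub c2).pow 2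
  exact c3.integrable_of_hasCompactSupport h4

private theorem hb_Hs_int {v : Fin N → (Fin d → ℝ) → ℂ} (hv : Fam v) (e e' : Fin d → ℝ) :
    Integrable (fun x => (√(rho v (x + e)) - √(rho v (x + e'))) ^ 2) :=
  hb_diff_int (hb_sr_cont hv) (cs_sqrt_rho hv) e e'

private theorem hb_Hs_int0 {v : Fin N → (Fin d → ℝ) → ℂ} (hv : Fam v) (e : Fin d → ℝ) :
    Integrable (fun x => (√(rho v x) - √(rho v (x + e))) ^ 2) := by
  have h := hb_Hs_int hv 0 e
  have h2 : (fun x => (√(rho v x) - √(rho v (x + e))) ^ 2) =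
      fun x => (√(rho v (x + 0)) - √(rho v (x + e))) ^ 2 := by
    funext x
    rw [add_zero]
  rw [h2]
  exact h

private theorem hb_Hs_trans (v : Fin N → (Fin d → ℝ) → ℂ) (j : Fin d) (a b : ℝ) :
    (∫ x : Fin d → ℝ, (√(rho v (x + Pi.single j a)) - √(rho v (x + Pi.single j b))) ^ 2)
      = Hs v j (b - a) := by
  have h := integral_add_right_eq_self (μ := (volume : Measure (Fin d → ℝ)))
    (fun x => (√(rho v x) - √(rho v (x + Pi.single j (b - a)))) ^ 2) (Pi.single j a)
  have h2 : ∀ x : Fin d → ℝ, x + Pi.single j a + Pi.single j (b - a) = x + Pi.single j b := by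
    intro x
    rw [add_assoc, ← Pi.single_add]
    congr 2
    ring
  simp only [h2] at h
  exact h

theorem Hs_le_kinj {v : Fin N → (Fin d → ℝ) → ℂ} (hv : Fam v) (j : Fin d) (s : ℝ) :
    Hs v j s ≤ s ^ 2 * kinj v j := by
  unfold Hs kinj
  rw [← hb_fub (hb_kj_cont hv j) (hb_kj_cs hv j) j s, ← integral_const_mul]
  apply integral_mono
  · exact hb_Hs_int0 hv (Pi.single j s)
  · exact (hb_intble (hb_kj_cont hv j) (hb_kj_cs hv j) j s).const_mul _
  · intro x
    exact hb_pt hv j s x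

private theorem hb_Hs_cont {v : Fin N → (Fin d → ℝ) → ℂ} (hv : Fam v) (j : Fin d) :
    Continuous (Hs v j) := by
  obtain ⟨K, hK⟩ := lip_sqrt_rho hv
  exact shd_cont hK (cs_sqrt_rho hv) j

private theorem hb_Hs_nonneg (v : Fin N → (Fin d → ℝ) → ℂ) (j : Fin d) (s : ℝ) : 0 ≤ Hs v j s :=
  integral_nonneg fun _ => sq_nonneg _

private theorem hb_alg (p q r : ℝ) : (p - r) ^ 2 ≤ 2 * (p - q) ^ 2 + 2 * (q - r) ^ 2 := by
  have := sq_nonneg ((p - q) - (q - r))
  nlinarith

private theorem hb_Hs_tri {v : Fin N → (Fin d → ℝ) → ℂ} (hv : Fam v) (j : Fin d) (s s' : ℝ) :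
    Hs v j s ≤ 2 * Hs v j s' + 2 * Hs v j (s - s') := by
  rw [← hb_Hs_trans v j s' s]
  have i1 := (hb_Hs_int0 hv (Pi.single j s')).const_mul 2
  have i2 := (hb_Hs_int hv (Pi.single j s') (Pi.single j s)).const_mul 2
  unfold Hs
  rw [← integral_const_mul, ← integral_const_mul, ← integral_add i1 i2]
  apply integral_mono (hb_Hs_int0 hv (Pi.single j s)) (i1.add i2)
  intro x
  exact hb_alg _ _ _

theorem Hs_le_DD {v : Fin N → (Fin d → ℝ) → ℂ} (hv : Fam v) (j : Fin d) {b s : ℝ} (hb : 0 < b)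
    (hs0 : 0 ≤ s) (hs : s ≤ b) : Hs v j s ≤ 4 * DD v j b := by
  have hc := hb_Hs_cont hv j
  have h0 := hb_Hs_nonneg v j
  have h1 : (∫ s' in (0 : ℝ)..b, Hs v j s) ≤
      ∫ s' in (0 : ℝ)..b, (2 * Hs v j s' + 2 * Hs v j (s - s')) := by
    apply intervalIntegral.integral_mono_on hb.le
    · exact continuous_const.intervalIntegrable _ _
    · apply Continuous.intervalIntegrable
      exact (continuous_const.mul hc).add
        (continuous_const.mul (hc.comp (continuous_const.sub continuous_id)))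
    · intro s' _
      exact hb_Hs_tri hv j s s'
  have h2 : (∫ s' in (0 : ℝ)..b, (2 * Hs v j s' + 2 * Hs v j (s - s')))
      = 2 * (∫ s' in (0 : ℝ)..b, Hs v j s') + 2 * ∫ s' in (s - b)..s, Hs v j s' := by
    rw [intervalIntegral.integral_add, intervalIntegral.integral_const_mul,
      intervalIntegral.integral_const_mul, intervalIntegral.integral_comp_sub_left (fun t => Hs v j t)]
    · simp
    · exact (continuous_const.mul hc).intervalIntegrable _ _
    · exact (continuous_const.mul (hc.comp (continuous_const.sub continuous_id))).intervalIntegrable _ _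
  have h3 : (∫ s' in (0 : ℝ)..b, Hs v j s') ≤ ∫ s' in (-b)..b, Hs v j s' := by
    apply intervalIntegral.integral_mono_interval (by linarith) hb.le le_rfl
    · exact Filter.Eventually.of_forall fun x => h0 x
    · exact hc.intervalIntegrable _ _
  have h4 : (∫ s' in (s - b)..s, Hs v j s') ≤ ∫ s' in (-b)..b, Hs v j s' := by
    apply intervalIntegral.integral_mono_interval (by linarith) (by linarith) hs
    · exact Filter.Eventually.of_forall fun x => h0 x
    · exact hc.intervalIntegrable _ _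
  rw [intervalIntegral.integral_const, smul_eq_mul, sub_zero] at h1
  have h5 : b * Hs v j s ≤ 4 * ∫ s' in (-b)..b, Hs v j s' := by linarith
  unfold DD
  have h6 : Hs v j s = b⁻¹ * (b * Hs v j s) := by field_simp
  rw [h6]
  calc b⁻¹ * (b * Hs v j s) ≤ b⁻¹ * (4 * ∫ s' in (-b)..b, Hs v j s') :=
        mul_le_mul_of_nonneg_left h5 (inv_nonneg.2 hb.le)
    _ = 4 * (b⁻¹ * ∫ s' in (-b)..b, Hs v j s') := by ring

private theorem hb_tele (f : ℕ → ℝ) (m : ℕ) :
    (f 0 - f m) ^ 2 ≤ (m : ℝ) * ∑ i ∈ range m, (f i - f (i + 1)) ^ 2 := by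
  have h4 := sq_sum_le_card_mul_sum_sq (s := range m) (f := fun i : ℕ => f i - f (i + 1))
  rw [card_range, Finset.sum_range_sub'] at h4
  exact h4

theorem Hs_steps {v : Fin N → (Fin d → ℝ) → ℂ} (hv : Fam v) (j : Fin d) (m : ℕ) (s : ℝ) :
    Hs v j (m * s) ≤ m ^ 2 * Hs v j s := by
  set f : ℕ → (Fin d → ℝ) → ℝ := fun i x => √(rho v (x + Pi.single j ((i : ℝ) * s))) with hf
  have h1 : ∀ i : ℕ, Integrable (fun x : Fin d → ℝ => (f i x - f (i + 1) x) ^ 2) :=
    fun i => hb_Hs_int hv _ _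
  have h0 : ∀ i : ℕ, (∫ x : Fin d → ℝ, (f i x - f (i + 1) x) ^ 2) = Hs v j s := by
    intro i
    have h := hb_Hs_trans v j ((i : ℝ) * s) (((i + 1 : ℕ) : ℝ) * s)
    have h2 : ((i + 1 : ℕ) : ℝ) * s - (i : ℝ) * s = s := by push_cast; ring
    rw [h2] at h
    exact h
  have h2 : (m : ℝ) ^ 2 * Hs v j s = ∫ x : Fin d → ℝ, (m : ℝ) * ∑ i ∈ range m,
      (f i x - f (i + 1) x) ^ 2 := by
    rw [integral_const_mul, integral_finsetSum _ fun i _ => h1 i,
      Finset.sum_congr rfl fun i _ => h0 i, Finset.sum_const, card_range, nsmul_eq_mul]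
    ring
  have h3 : Hs v j (m * s) = ∫ x : Fin d → ℝ, (f 0 x - f m x) ^ 2 := by
    have h := hb_Hs_trans v j (((0 : ℕ) : ℝ) * s) ((m : ℝ) * s)
    have h4 : (m : ℝ) * s - ((0 : ℕ) : ℝ) * s = m * s := by push_cast; ring
    rw [h4] at h
    exact h.symm
  rw [h2, h3]
  apply integral_mono
  · exact hb_Hs_int hv _ _
  · exact (integrable_finsetSum _ fun i _ => h1 i).const_mul _
  · intro x
    exact hb_tele (fun i => f i x) m

theorem int_Hs_le {v : Fin N → (Fin d → ℝ) → ℂ} (hv : Fam v) (j : Fin d) {a b : ℝ} (hb : 0 < b)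
    (ha : 1 ≤ a) : (∫ s in (0 : ℝ)..(a * b), Hs v j s / s)
      ≤ b ^ 2 / 8 * kinj v j + 11 * a ^ 2 * DD v j b := by
  obtain ⟨K, hK⟩ := lip_sqrt_rho hv
  have hi : ∀ A B : ℝ, IntervalIntegrable (fun s => Hs v j s / s) volume A B := fun A B =>
    shd_intv hK (cs_sqrt_rho hv) j A B
  have h0 := hb_Hs_nonneg v j
  have hD : 0 ≤ DD v j b := by
    have := Hs_le_DD hv j hb le_rfl hb.le
    have := h0 0
    linarith
  have hab : b ≤ a * b := by nlinarith
  have e : (∫ s in (0 : ℝ)..(a * b), Hs v j s / s) = (∫ s in (0 : ℝ)..(b / 2), Hs v j s / s)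
      + (∫ s in (b / 2)..b, Hs v j s / s) + ∫ s in b..(a * b), Hs v j s / s := by
    rw [intervalIntegral.integral_add_adjacent_intervals (hi _ _) (hi _ _),
      intervalIntegral.integral_add_adjacent_intervals (hi _ _) (hi _ _)]
  have p1 : (∫ s in (0 : ℝ)..(b / 2), Hs v j s / s) ≤ b ^ 2 / 8 * kinj v j := by
    have h1 : (∫ s in (0 : ℝ)..(b / 2), Hs v j s / s) ≤ ∫ s in (0 : ℝ)..(b / 2), s * kinj v j := by
      apply intervalIntegral.integral_mono_on (by linarith) (hi _ _)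
      · exact (continuous_id.mul continuous_const).intervalIntegrable _ _
      · intro s hs
        rcases eq_or_lt_of_le hs.1 with h | h
        · rw [← h]; simp
        · rw [div_le_iff₀ h]
          have := Hs_le_kinj hv j s
          nlinarith
    rw [intervalIntegral.integral_mul_const, integral_id] at h1
    have h2 : ((b / 2) ^ 2 - 0 ^ 2) / 2 * kinj v j = b ^ 2 / 8 * kinj v j := by ring
    linarith
  have p2 : (∫ s in (b / 2)..b, Hs v j s / s) ≤ 4 * DD v j b := by
    have h1 : (∫ s in (b / 2)..b, Hs v j s / s) ≤ ∫ s in (b / 2)..b, 8 * DD v j b / b := by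
      apply intervalIntegral.integral_mono_on (by linarith) (hi _ _)
      · exact continuous_const.intervalIntegrable _ _
      · intro s hs
        have hs0 : 0 < s := by linarith [hs.1]
        have h2 := Hs_le_DD hv j hb hs0.le hs.2
        rw [div_le_div_iff₀ hs0 hb]
        have h3 : Hs v j s * b ≤ 4 * DD v j b * b := mul_le_mul_of_nonneg_right h2 hb.le
        have h4 : 4 * DD v j b * b ≤ 8 * DD v j b * s := by nlinarith [hs.1]
        linarith
    rw [intervalIntegral.integral_const, smul_eq_mul] at h1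
    have h2 : (b - b / 2) * (8 * DD v j b / b) = 4 * DD v j b := by
      field_simp
      ring
    linarith
  have p3 : (∫ s in b..(a * b), Hs v j s / s) ≤ 8 * (a ^ 2 - 1) * DD v j b := by
    have h1 : (∫ s in b..(a * b), Hs v j s / s) ≤
        ∫ s in b..(a * b), s * (16 * DD v j b / b ^ 2) := by
      apply intervalIntegral.integral_mono_on hab (hi _ _)
      · exact (continuous_id.mul continuous_const).intervalIntegrable _ _
      · intro s hs
        have hs0 : 0 < s := by linarith [hs.1]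
        rw [div_le_iff₀ hs0]
        set m : ℕ := ⌈s / b⌉₊ with hm
        have hsb : 1 ≤ s / b := by rw [le_div_iff₀ hb]; linarith [hs.1]
        have hm1 : s / b ≤ m := Nat.le_ceil _
        have hm2 : (m : ℝ) < s / b + 1 := Nat.ceil_lt_add_one (by linarith)
        have hm0 : (0 : ℝ) < m := by linarith
        have h2 : Hs v j s ≤ (m : ℝ) ^ 2 * Hs v j (s / m) := by
          have := Hs_steps hv j m (s / m)
          rwa [mul_div_cancel₀ _ hm0.ne'] at this
        have h3 : Hs v j (s / m) ≤ 4 * DD v j b := by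
          apply Hs_le_DD hv j hb (by positivity)
          rw [div_le_iff₀ hm0]
          rw [div_le_iff₀ hb] at hm1
          linarith
        have h4 : (m : ℝ) ^ 2 ≤ (2 * (s / b)) ^ 2 := pow_le_pow_left₀ hm0.le (by linarith) 2
        have h5 : (m : ℝ) ^ 2 * Hs v j (s / m) ≤ (2 * (s / b)) ^ 2 * (4 * DD v j b) :=
          mul_le_mul h4 h3 (h0 _) (by positivity)
        have h6 : (2 * (s / b)) ^ 2 * (4 * DD v j b) = s * (16 * DD v j b / b ^ 2) * s := by
          field_simp
          ring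
        linarith
    rw [intervalIntegral.integral_mul_const, integral_id] at h1
    have h2 : ((a * b) ^ 2 - b ^ 2) / 2 * (16 * DD v j b / b ^ 2) = 8 * (a ^ 2 - 1) * DD v j b := by
      field_simp
      ring
    linarith
  rw [e]
  have : 4 * DD v j b + 8 * (a ^ 2 - 1) * DD v j b ≤ 11 * a ^ 2 * DD v j b := by
    nlinarith [mul_nonneg (sq_nonneg a) hD]
  linarith

theorem sum_kinj {v : Fin N → (Fin d → ℝ) → ℂ} (hv : Fam v) : ∑ j, kinj v j = kin v := by
  unfold kinj Pool.Agent.LiebT2.kin Pool.Agent.LiebT2.dens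
  rw [← integral_finsetSum _ fun j _ =>
    (hb_kj_cont hv j).integrable_of_hasCompactSupport (hb_kj_cs hv j)]
  congr 1
  funext y
  rw [Finset.sum_comm]

end Pool.Agent.LTFN
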