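import Pool.Agent.LTFN.Ten
import Pool.Agent.LTFN.HB

/-!
# [LTFN-Spread]

`ls_tensor` with `F = √ρ` (`F² = ρ`), `A = a b`, then `int_Hs_le` for each `j` and `sum_kinj`.
-/

open Real Finset MeasureTheory
open Pool.Agent.LiebT2 Pool.Agent.LTHD

set_option autoImplicit false

namespace Pool.Agent.LTFN

variable {d k N : ℕ}

theorem spread {v : Fin N → (Fin d → ℝ) → ℂ} (hv : Fam v) {a b : ℝ} (hb : 0 < b) (ha : 1 ≤ a) :
    (∫ x, rho v x * Real.log (rho v x)) + d * Real.log (a * b / 16) * (∫ x, rho v x)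
      - (∫ x, rho v x) * Real.log (∫ x, rho v x)
      ≤ 1 / 2 * b ^ 2 * kin v + 44 * a ^ 2 * ∑ j, DD v j b := by
  obtain ⟨K, hK⟩ := lip_sqrt_rho hv
  have hA : 0 < a * b := mul_pos (by linarith) hb
  have h1 := ls_tensor hK (cs_sqrt_rho hv) (fun x => Real.sqrt_nonneg _) hA
  have h2 : ∀ x, (√(rho v x)) ^ 2 = rho v x := fun x => Real.sq_sqrt (rho_nonneg v x)
  simp only [h2] at h1
  refine h1.trans ?_
  have h3 : ∀ j, ∫ s in (0 : ℝ)..(a * b), shd (fun x => √(rho v x)) j s / s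
      ≤ b ^ 2 / 8 * kinj v j + 11 * a ^ 2 * DD v j b := fun j => int_Hs_le hv j hb ha
  have h4 := Finset.sum_le_sum fun j (_ : j ∈ Finset.univ) => h3 j
  rw [Finset.sum_add_distrib, ← Finset.mul_sum, ← Finset.mul_sum, sum_kinj hv] at h4
  linarith

end Pool.Agent.LTFN
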