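import Mathlib
import Pool.Agent.LTHD.Win
import Pool.Agent.LTHD.TransLoc
import Pool.Agent.LTHD.Ims
import Pool.Agent.LTHD.Ent
import Pool.Agent.LTHD.KcAsym
import Pool.Agent.LTFN.Sh
import Pool.Agent.LTFN.Spread
import Pool.Agent.LTHD.ChiB
import Pool.Agent.LTFN.FWin
import Pool.Agent.LTFN.FPt
import Pool.Agent.LTFN.KcUp

open Real Finset MeasureTheory
open Pool.Agent.LiebT2 Pool.Agent.LTHD

set_option autoImplicit false

namespace Pool.Agent.LTFN

variable {d k N : ℕ}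

theorem integrable_Pf {v : Fin N → (Fin d → ℝ) → ℂ} (hv : Fam v) (κ : ℝ) {E : ℝ} (hE : 0 < E) :
    Integrable (fun x => Pf d κ E (rho v x)) := by
  unfold Pf
  exact ((integrable_rho hv).const_mul _).sub
    ((integrable_rho_log_div hv (E := E ^ ((d : ℝ) / 2)) (by positivity)).const_mul _)

theorem integral_Pf {v : Fin N → (Fin d → ℝ) → ℂ} (hv : Fam v) (κ : ℝ) {E : ℝ} (hE : 0 < E) :
    (∫ x, Pf d κ E (rho v x)) = (1 + 2 / κ) * (∫ x, rho v x)
      - (1 + 1 / κ) * (2 / (d : ℝ)) * (∫ x, rho v x * Real.log (E ^ ((d : ℝ) / 2) / rho v x)) := by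
  unfold Pf
  rw [integral_sub ((integrable_rho hv).const_mul _)
    ((integrable_rho_log_div hv (E := E ^ ((d : ℝ) / 2)) (by positivity)).const_mul _),
    integral_const_mul, integral_const_mul]

theorem fassembled {u : Fin N → (Fin d → ℝ) → ℂ} (hd : 2 ≤ d) (hu : Fam u) (hb : Bes u)
    {a b : ℝ → ℝ} {D : ℝ} (hT : Trans a b D) {η t₀ : ℝ} (hη : 0 < η) (hη' : η ≤ 1 / 4) {m : ℕ}
    (htop : ∀ x, 0 < rho u x → 2 / (d : ℝ) * Real.log (rho u x) ≤ t₀ + m * η)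
    {A : ℝ} (hA : 1 ≤ A) (hN : (∫ x, rho u x) ≤ (A / 94) ^ d) :
    2 * π * d / Real.exp 1 * ((∫ x, rho u x ^ (1 + 2 / (d : ℝ))) *
        (1 - 4 * η ^ 2 + (2 - 2 * η) / (880 * A ^ 2) - 5 / d)
      - 6 * Real.exp (t₀ + η) * (∫ x, rho u x))
    ≤ (1 + 1 / (2 * (880 * A ^ 2))) * ((1 + 16 * D / (η * d) ^ 2) * kin u) := by
  have hd1 : 1 ≤ d := by omega
  have hd0 : (0 : ℝ) < d := by exact_mod_cast hd1
  set κ : ℝ := 880 * A ^ 2 with hκ
  have hκ1 : 1 ≤ κ := by rw [hκ]; nlinarith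
  have hκ0 : 0 < κ := by linarith
  set K0 : ℝ := 2 * π * d / Real.exp 1 with hK0
  have hK00 : 0 < K0 := by rw [hK0]; positivity
  set W : ℕ → Fin N → (Fin d → ℝ) → ℂ := fun i => win a b η (t₀ + i * η) (t₀ + (i + 1 : ℕ) * η) u
    with hW
  set E : ℕ → ℝ := fun i => Real.exp (t₀ + (i + 1 : ℕ) * η + η) with hE
  have hE0 : ∀ i, 0 < E i := fun i => Real.exp_pos _
  have hWf : ∀ i, Fam (W i) := fun i => fam_win hT hη hd1 hu
  have hWb : ∀ i, Bes (W i) := fun i => bes_win hT hη hd1 hu hb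
  have hWr : ∀ i x, rho (W i) x
      = chi a b d η (t₀ + i * η) (t₀ + (i + 1 : ℕ) * η) (rho u x) ^ 2 * rho u x :=
    fun i x => rho_win a b η _ _ u x
  have hchi1 : ∀ s t r : ℝ, chi a b d η s t r ^ 2 ≤ 1 := by
    intro s t r
    unfold chi
    split_ifs with h
    · simp
    · have ha : a ((2 / (d : ℝ) * Real.log r - s) / η) ^ 2 ≤ 1 := by
        have := hT.sq ((2 / (d : ℝ) * Real.log r - s) / η)
        nlinarith [sq_nonneg (b ((2 / (d : ℝ) * Real.log r - s) / η))]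
      have hb : b ((2 / (d : ℝ) * Real.log r - t) / η) ^ 2 ≤ 1 := by
        have := hT.sq ((2 / (d : ℝ) * Real.log r - t) / η)
        nlinarith [sq_nonneg (a ((2 / (d : ℝ) * Real.log r - t) / η))]
      rw [mul_pow]
      exact mul_le_one₀ ha (sq_nonneg _) hb
  have hWn : ∀ i, (∫ x, rho (W i) x) ≤ (A / 94) ^ d := by
    intro i
    refine le_trans (integral_mono (integrable_rho (hWf i)) (integrable_rho hu) fun x => ?_) hN
    rw [hWr i x]
    calc _ ≤ 1 * rho u x := mul_le_mul_of_nonneg_right (hchi1 _ _ _) (rho_nonneg u x)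
      _ = rho u x := one_mul _
  have h1 : ∀ i, K0 * E i * (∫ x, Pf d κ (E i) (rho (W i) x)) ≤ (1 + 1 / (2 * κ)) * kin (W i) := by
    intro i
    rw [integral_Pf (hWf i) κ (hE0 i)]
    exact fwin hd1 (hWf i) (fun b hb => entropic (hWf i) (hWb i) hb) (hE0 i) hA (hWn i)
  have hcoef : 0 ≤ 1 + 1 / (2 * κ) := by positivity
  have h2 : ∑ i ∈ range m, K0 * E i * (∫ x, Pf d κ (E i) (rho (W i) x))
      ≤ (1 + 1 / (2 * κ)) * ((1 + 16 * D / (η * d) ^ 2) * kin u) := by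
    calc _ ≤ ∑ i ∈ range m, (1 + 1 / (2 * κ)) * kin (W i) := Finset.sum_le_sum fun i _ => h1 i
      _ = (1 + 1 / (2 * κ)) * ∑ i ∈ range m, kin (W i) := by rw [Finset.mul_sum]
      _ ≤ _ := mul_le_mul_of_nonneg_left (ims hT hη le_rfl hd1 hu htop) hcoef
  refine le_trans ?_ h2
  have iP : ∀ i, Integrable (fun x => E i * Pf d κ (E i) (rho (W i) x)) :=
    fun i => (integrable_Pf (hWf i) κ (hE0 i)).const_mul _
  have e1 : ∑ i ∈ range m, K0 * E i * (∫ x, Pf d κ (E i) (rho (W i) x))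
      = K0 * ∫ x, ∑ i ∈ range m, E i * Pf d κ (E i) (rho (W i) x) := by
    rw [integral_finsetSum (range m) (fun i _ => iP i), Finset.mul_sum]
    apply Finset.sum_congr rfl
    intro i _
    rw [integral_const_mul]
    ring
  rw [e1]
  apply mul_le_mul_of_nonneg_left _ hK00.le
  have i1 := (integrable_rho_q hu).mul_const (1 - 4 * η ^ 2 + (2 - 2 * η) / κ - 5 / d)
  have i2 := (integrable_rho hu).const_mul (6 * Real.exp (t₀ + η))
  rw [← integral_mul_const, ← integral_const_mul, ← integral_sub i1 i2]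
  apply integral_mono (i1.sub i2) (integrable_finsetSum (range m) fun i _ => iP i)
  intro x
  simp only [hWr]
  exact fpt hT hη hη' hd hκ1 (rho_nonneg u x) (htop x)

/-- limit `t₀ → -∞` -/
theorem fassembled' {u : Fin N → (Fin d → ℝ) → ℂ} (hd : 2 ≤ d) (hu : Fam u) (hb : Bes u)
    {a b : ℝ → ℝ} {D : ℝ} (hT : Trans a b D) {η : ℝ} (hη : 0 < η) (hη' : η ≤ 1 / 4)
    {A : ℝ} (hA : 1 ≤ A) (hN : (∫ x, rho u x) ≤ (A / 94) ^ d) :
    2 * π * d / Real.exp 1 * ((∫ x, rho u x ^ (1 + 2 / (d : ℝ))) *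
        (1 - 4 * η ^ 2 + (2 - 2 * η) / (880 * A ^ 2) - 5 / d))
    ≤ (1 + 1 / (2 * (880 * A ^ 2))) * ((1 + 16 * D / (η * d) ^ 2) * kin u) := by
  have hd0 : (0 : ℝ) < d := by
    have : 0 < d := by omega
    exact_mod_cast this
  obtain ⟨M, hM1, hM⟩ := exists_bound_rho hu
  set K0 : ℝ := 2 * π * d / Real.exp 1 with hK0
  have hK00 : 0 < K0 := by rw [hK0]; positivity
  have hn0 : 0 ≤ ∫ x, rho u x := integral_nonneg fun x => rho_nonneg u x
  apply le_of_forall_pos_le_add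
  intro ε hε
  -- choose `t₀`
  set n := ∫ x, rho u x with hn
  have hpos : 0 < K0 * (6 * n + 1) := by positivity
  obtain ⟨t₀, ht⟩ : ∃ t₀ : ℝ, Real.exp (t₀ + η) = ε / (K0 * (6 * n + 1)) :=
    ⟨Real.log (ε / (K0 * (6 * n + 1))) - η, by rw [sub_add_cancel, Real.exp_log (by positivity)]⟩
  obtain ⟨m, hm⟩ := exists_nat_ge ((2 / (d : ℝ) * Real.log M - t₀) / η)
  rw [div_le_iff₀ hη] at hm
  have htop : ∀ x, 0 < rho u x → 2 / (d : ℝ) * Real.log (rho u x) ≤ t₀ + m * η := by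
    intro x hx
    have h1 : Real.log (rho u x) ≤ Real.log M := Real.log_le_log hx (hM x)
    have h2 : 2 / (d : ℝ) * Real.log (rho u x) ≤ 2 / (d : ℝ) * Real.log M :=
      mul_le_mul_of_nonneg_left h1 (by positivity)
    linarith
  have h := fassembled hd hu hb hT hη hη' htop hA hN
  have h3 : K0 * (6 * Real.exp (t₀ + η) * n) ≤ ε := by
    rw [ht]
    have h4 : K0 * (6 * (ε / (K0 * (6 * n + 1))) * n) = ε * (6 * n / (6 * n + 1)) := by
      field_simp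
    rw [h4]
    have h5 : 6 * n / (6 * n + 1) ≤ 1 := by
      rw [div_le_one (by linarith)]
      linarith
    calc ε * (6 * n / (6 * n + 1)) ≤ ε * 1 := mul_le_mul_of_nonneg_left h5 hε.le
      _ = ε := mul_one _
  rw [mul_sub] at h
  linarith

theorem ffinal_num {x l f g : ℝ} (hx0 : 0 < x) (hx : x ≤ 1 / 100) (hl0 : 0 ≤ l) (hl : l ≤ x / 16)
    (hf0 : 0 ≤ f) (hf : f ≤ x / 16) (hg0 : 0 ≤ g) (hg : g ≤ x / 16) :
    (1 + x / 4) * (1 + l) * ((1 + x / 2) * (1 + g)) ≤ 1 - x / 16 + (2 - 1 / 4) * x - f := by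
  have h1 : (1 + x / 4) * (1 + l) ≤ (1 + x / 4) * (1 + x / 16) :=
    mul_le_mul_of_nonneg_left (by linarith) (by linarith)
  have h2 : (1 + x / 2) * (1 + g) ≤ (1 + x / 2) * (1 + x / 16) :=
    mul_le_mul_of_nonneg_left (by linarith) (by linarith)
  have h3 : (1 + x / 4) * (1 + l) * ((1 + x / 2) * (1 + g))
      ≤ (1 + x / 4) * (1 + x / 16) * ((1 + x / 2) * (1 + x / 16)) :=
    mul_le_mul h1 h2 (by positivity) (by positivity)
  refine h3.trans ?_
  have hx2 : x ^ 2 ≤ x / 100 := by nlinarith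
  have hx3 : x ^ 3 ≤ x / 100 := by nlinarith [mul_pos hx0 hx0]
  have hx4 : x ^ 4 ≤ x / 100 := by nlinarith [mul_pos hx0 hx0, mul_pos (mul_pos hx0 hx0) hx0]
  nlinarith

/-- the main inequality on `Fin d → ℝ` -/
theorem fkin_ge : ∃ d₀ : ℕ, ∀ d : ℕ, d₀ ≤ d → ∀ N : ℕ, 0 < N →
    (N : ℝ) ^ (2 / (d : ℝ)) ≤ 1 / 10 ^ 9 * d / Real.log d → ∀ u : Fin N → (Fin d → ℝ) → ℂ,
    Fam u → Bes u → (∫ x, rho u x) ≤ N →
    (1 + 1 / 10 ^ 9 * (N : ℝ) ^ (-(2 / (d : ℝ)))) * Kc d * (∫ x, rho u x ^ (1 + 2 / (d : ℝ)))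
      ≤ kin u := by
  obtain ⟨a, b, D, hD, hT⟩ := exists_trans
  obtain ⟨d₁, hd₁⟩ := Kc_up
  obtain ⟨d₂, hd₂⟩ : ∃ d₂ : ℕ, ∀ d : ℕ, d₂ ≤ d → 16384 * D + 100 ≤ Real.log d := by
    obtain ⟨d₂, hd₂⟩ := exists_nat_ge (Real.exp (16384 * D + 100))
    refine ⟨d₂, fun d hd => ?_⟩
    have h1 : Real.exp (16384 * D + 100) ≤ d := hd₂.trans (by exact_mod_cast hd)
    rw [← Real.log_exp (16384 * D + 100)]
    exact Real.log_le_log (Real.exp_pos _) h1
  refine ⟨max (max d₁ d₂) 2, fun d hd N hN0 hN u hu hb hn => ?_⟩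
  have hdd1 : d₁ ≤ d := (le_max_left _ _).trans ((le_max_left _ _).trans hd)
  have hdd2 : d₂ ≤ d := (le_max_right _ _).trans ((le_max_left _ _).trans hd)
  have hd2 : 2 ≤ d := (le_max_right _ _).trans hd
  have hd0 : (0 : ℝ) < d := by
    have : 0 < d := by omega
    exact_mod_cast this
  have hlog := hd₂ d hdd2
  have hlog0 : 0 < Real.log d := by linarith
  have hN1 : (1 : ℝ) ≤ N := by exact_mod_cast hN0
  have hNpos : (0 : ℝ) < N := by linarith
  set P : ℝ := (N : ℝ) ^ (2 / (d : ℝ)) with hP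
  have hP1 : 1 ≤ P := Real.one_le_rpow hN1 (by positivity)
  have hP0 : 0 < P := by linarith
  have hPinv : (N : ℝ) ^ (-(2 / (d : ℝ))) = P⁻¹ := by rw [hP, Real.rpow_neg hNpos.le]
  set A : ℝ := 94 * (N : ℝ) ^ (1 / (d : ℝ)) with hA
  have hA1 : 1 ≤ A := by
    have : (1 : ℝ) ≤ (N : ℝ) ^ (1 / (d : ℝ)) := Real.one_le_rpow hN1 (by positivity)
    rw [hA]; linarith
  have hAd : (A / 94) ^ d = N := by
    rw [hA, mul_div_cancel_left₀ _ (by norm_num : (94 : ℝ) ≠ 0), ← Real.rpow_natCast,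
      ← Real.rpow_mul hNpos.le, one_div, inv_mul_cancel₀ hd0.ne', Real.rpow_one]
  have hA2 : A ^ 2 = 8836 * P := by
    rw [hA, mul_pow, ← Real.rpow_natCast ((N : ℝ) ^ (1 / (d : ℝ))) 2, ← Real.rpow_mul hNpos.le, hP]
    have : 1 / (d : ℝ) * ((2 : ℕ) : ℝ) = 2 / d := by push_cast; ring
    rw [this]
    norm_num
  set κ : ℝ := 880 * A ^ 2 with hκ
  have hκP : κ = 7775680 * P := by rw [hκ, hA2]; ring
  have hκ1 : 7775680 ≤ κ := by rw [hκP]; linarith
  have hκ0 : 0 < κ := by linarith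
  set x : ℝ := 1 / κ with hx
  have hx0 : 0 < x := by positivity
  have hx1 : x ≤ 1 / 100 := by
    rw [hx]
    exact one_div_le_one_div_of_le (by norm_num) (by linarith)
  set sκ : ℝ := √κ with hsκ
  have hsκ0 : 0 < sκ := Real.sqrt_pos.mpr hκ0
  have hsκ2 : sκ ^ 2 = κ := Real.sq_sqrt hκ0.le
  have hsκ1 : 1 ≤ sκ := by
    rw [hsκ, ← Real.sqrt_one]
    exact Real.sqrt_le_sqrt (by linarith)
  set η : ℝ := 1 / (8 * sκ) with hη
  have hη0 : 0 < η := by positivity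
  have hη1 : η ≤ 1 / 8 := by
    rw [hη]
    exact one_div_le_one_div_of_le (by norm_num) (by linarith)
  have hη2 : η ^ 2 = x / 64 := by
    rw [hη, hx, div_pow, mul_pow, hsκ2]
    field_simp
    norm_num
  have h := fassembled' hd2 hu hb hT hη0 (by linarith) hA1 (by rw [hAd]; exact hn)
  rw [← hκ] at h
  set K0 : ℝ := 2 * π * d / Real.exp 1 with hK0
  have hK00 : 0 < K0 := by rw [hK0]; positivity
  set J : ℝ := ∫ x, rho u x ^ (1 + 2 / (d : ℝ)) with hJ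
  have hJ0 : 0 ≤ J := integral_nonneg fun y => Real.rpow_nonneg (rho_nonneg u y) _
  -- smallness
  have hκd : κ * Real.log d ≤ d / 128 := by
    have h1 : P * Real.log d ≤ 1 / 10 ^ 9 * d := by
      rwa [le_div_iff₀ hlog0] at hN
    rw [hκP]
    nlinarith
  have hl : 3 * Real.log d / d ≤ x / 16 := by
    rw [hx, div_le_iff₀ hd0]
    have : 3 * Real.log d * (16 * κ) ≤ d := by nlinarith
    have h2 : 1 / κ / 16 * d = d / (16 * κ) := by field_simp
    rw [h2, le_div_iff₀ (by positivity)]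
    linarith
  have hf : 5 / (d : ℝ) ≤ x / 16 := by
    refine le_trans ?_ hl
    apply div_le_div_of_nonneg_right _ hd0.le
    linarith
  set g : ℝ := 16 * D / (η * d) ^ 2 with hg
  have hg0 : 0 ≤ g := by positivity
  have hgx : g ≤ x / 16 := by
    have h1 : g = 1024 * D * κ / d ^ 2 := by
      rw [hg, mul_pow, hη2, hx]
      field_simp
      ring
    rw [h1, hx, div_le_iff₀ (by positivity)]
    have h2 : 1 / κ / 16 * (d : ℝ) ^ 2 = (d : ℝ) ^ 2 / (16 * κ) := by field_simp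
    rw [h2, le_div_iff₀ (by positivity)]
    have h3 : (κ * Real.log d) ^ 2 ≤ (d / 128) ^ 2 :=
      pow_le_pow_left₀ (by positivity) hκd 2
    have h4 : 16384 * D ≤ Real.log d ^ 2 := by nlinarith
    have h5 : 16384 * D * κ ^ 2 ≤ (κ * Real.log d) ^ 2 := by
      have e5 : (κ * Real.log d) ^ 2 = Real.log d ^ 2 * κ ^ 2 := by ring
      rw [e5]
      exact mul_le_mul_of_nonneg_right h4 (by positivity)
    nlinarith [sq_nonneg (d : ℝ)]
  have hnum := ffinal_num hx0 hx1 (by positivity : 0 ≤ 3 * Real.log d / d) hl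
    (by positivity : (0 : ℝ) ≤ 5 / d) hf hg0 hgx
  -- lower bound for the bracket
  have hbr : (1 + x / 4) * (1 + 3 * Real.log d / d) * ((1 + x / 2) * (1 + g))
      ≤ 1 - 4 * η ^ 2 + (2 - 2 * η) / κ - 5 / d := by
    refine hnum.trans ?_
    rw [hη2]
    have h1 : (2 - 2 * η) / κ = (2 - 2 * η) * x := by rw [hx]; ring
    rw [h1]
    nlinarith
  have hKc := hd₁ d hdd1
  have hc : 1 / 10 ^ 9 * (N : ℝ) ^ (-(2 / (d : ℝ))) ≤ x / 4 := by
    rw [hPinv, hx, hκP]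
    have : 1 / (7775680 * P) / 4 = 1 / 31102720 * P⁻¹ := by field_simp; norm_num
    rw [this]
    apply mul_le_mul_of_nonneg_right _ (by positivity)
    norm_num
  have hfac : 0 < (1 + 1 / (2 * κ)) * (1 + g) := by positivity
  have hx2 : 1 / (2 * κ) = x / 2 := by rw [hx]; field_simp
  have hlhs : (1 + 1 / 10 ^ 9 * (N : ℝ) ^ (-(2 / (d : ℝ)))) * Kc d * J
      ≤ (1 + x / 4) * (K0 * (1 + 3 * Real.log d / d)) * J := by
    apply mul_le_mul_of_nonneg_right _ hJ0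
    apply mul_le_mul (by linarith) hKc _ (by positivity)
    exact hd0.le.trans (Kc_ge hd2)
  refine hlhs.trans ?_
  have h6 : (1 + x / 4) * (K0 * (1 + 3 * Real.log d / d)) * J * ((1 + 1 / (2 * κ)) * (1 + g))
      ≤ (1 + 1 / (2 * κ)) * ((1 + g) * kin u) := by
    calc _ = K0 * (J * ((1 + x / 4) * (1 + 3 * Real.log d / d) * ((1 + x / 2) * (1 + g)))) := by
          rw [hx2]; ring
      _ ≤ K0 * (J * (1 - 4 * η ^ 2 + (2 - 2 * η) / κ - 5 / d)) :=
          mul_le_mul_of_nonneg_left (mul_le_mul_of_nonneg_left hbr hJ0) hK00.le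
      _ ≤ _ := h
  have h7 : (1 + 1 / (2 * κ)) * ((1 + g) * kin u) = kin u * ((1 + 1 / (2 * κ)) * (1 + g)) := by ring
  rw [h7] at h6
  exact le_of_mul_le_mul_right h6 hfac

end Pool.Agent.LTFN
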