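import Mathlib
import Pool.Agent.LTHD.Ortho
import Pool.Agent.LTFN.FMain

open Real Finset MeasureTheory
open Pool.Agent.LiebT2 Pool.Agent.LTHD

set_option autoImplicit false

namespace Pool.Agent.LTFN

variable {d k N : ℕ}

theorem ffinal : ∃ d₀ : ℕ, ∀ d : ℕ, d₀ ≤ d → ∀ N : ℕ, 0 < N →
    (N : ℝ) ≤ (1 / 10 ^ 9 * d / Real.log d) ^ ((d : ℝ) / 2) →
    ∀ u : Fin N → EuclideanSpace ℝ (Fin d) → ℂ,
    (∀ n, ContDiff ℝ 1 (u n) ∧ HasCompactSupport (u n)) →
    (∀ n m, ∫ x, star (u n x) * u m x = if n = m then (1 : ℂ) else 0) →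
    (1 + 1 / 10 ^ 9 * (N : ℝ) ^ (-(2 / (d : ℝ)))) * Kc d *
        (∫ x, (∑ n, ‖u n x‖ ^ 2) ^ (1 + 2 / (d : ℝ)))
      ≤ ∑ n, ∫ x, ∑ i : Fin d, ‖fderiv ℝ (u n) x (EuclideanSpace.single i (1 : ℝ))‖ ^ 2 := by
  obtain ⟨d₀, hd₀⟩ := fkin_ge
  refine ⟨max 2 d₀, fun d hd N hN hNd u hu ho => ?_⟩
  have hd2 : 2 ≤ d := (le_max_left _ _).trans hd
  have hdR : (0 : ℝ) < d := by
    have : 0 < d := by omega
    exact_mod_cast this
  have hlog : 0 < Real.log d := Real.log_pos (by exact_mod_cast hd2)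
  have hX : 0 ≤ 1 / 10 ^ 9 * (d : ℝ) / Real.log d := by positivity
  have hN2 : (N : ℝ) ^ (2 / (d : ℝ)) ≤ 1 / 10 ^ 9 * d / Real.log d := by
    have h1 := Real.rpow_le_rpow (Nat.cast_nonneg N) hNd (by positivity : 0 ≤ 2 / (d : ℝ))
    rw [← Real.rpow_mul hX] at h1
    have h2 : (d : ℝ) / 2 * (2 / d) = 1 := by field_simp
    rwa [h2, Real.rpow_one] at h1
  have hfam := fam_eE hu
  set v : Fin N → (Fin d → ℝ) → ℂ := fun n y => u n (eE d y) with hv
  have ho' : ∀ n m, ∫ y, star (v n y) * v m y = if n = m then (1 : ℂ) else 0 := by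
    intro n m
    rw [← ho n m, integral_eE]
  have hb : Bes v := bes_of_ortho hfam ho'
  have hn : (∫ y, rho v y) ≤ N := by
    have h1 : ∀ n, ∫ y, ‖v n y‖ ^ 2 = 1 := by
      intro n
      have h2 := ho' n n
      rw [if_pos rfl] at h2
      have h3 : ∀ y, star (v n y) * v n y = ((‖v n y‖ ^ 2 : ℝ) : ℂ) := by
        intro y
        rw [RCLike.star_def, ← Complex.normSq_eq_conj_mul_self, Complex.normSq_eq_norm_sq]
      simp only [h3] at h2
      rw [integral_complex_ofReal] at h2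
      exact_mod_cast h2
    have h4 : ∀ n, Integrable (fun y => ‖v n y‖ ^ 2) := by
      intro n
      apply Continuous.integrable_of_hasCompactSupport
      · exact (hfam.smooth n).continuous.norm.pow 2
      · exact (hfam.supp n).norm.comp_left (g := fun t : ℝ => t ^ 2) (by simp)
    unfold rho
    rw [integral_finsetSum _ fun n _ => h4 n]
    simp only [h1]
    simp
  have h := hd₀ d ((le_max_right _ _).trans hd) N hN hN2 v hfam hb hn
  have e1 : ∫ x, (∑ n, ‖u n x‖ ^ 2) ^ (1 + 2 / (d : ℝ))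
      = ∫ y, rho v y ^ (1 + 2 / (d : ℝ)) := by
    rw [integral_eE]
    rfl
  have e2 : ∑ n, ∫ x, ∑ i : Fin d, ‖fderiv ℝ (u n) x (EuclideanSpace.single i (1 : ℝ))‖ ^ 2
      = kin v := by
    rw [kin_eq hfam]
    apply Finset.sum_congr rfl
    intro n _
    rw [integral_eE]
    congr 1
    funext y
    unfold dens1
    apply Finset.sum_congr rfl
    intro i _
    rw [hv]
    simp only
    rw [fderiv_eE (hu n).1]
  rw [e1, e2]
  exact h

end Pool.Agent.LTFN
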