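import Mathlib
import Pool.Agent.LTHD.Defs
import Pool.Agent.LTHD.Base

/-!
# LTFN: exact Lieb-Thirring inequality for few functions in high dimension (MP_cfe56d_mp, helper52)

Theorem (Final): there is `d₀` such that for all `d ≥ d₀` and all `N ≥ 1` with `N^(2/d) ≤ 10^(-9) d / log d` every
orthonormal family of `N` functions satisfies
`∑ ∫ |∇ u_n|² ≥ (1 + 10^(-9) N^(-2/d)) K_d^cl ∫ ρ^(1+2/d)`.

Proof in short. Entropic inequality with gain (LTHD.Ent, `entropic`), `b > 0`:
  `(d/2) log(4 π b²) n + ∫ ρ log ρ + (1/20) ∑_j DD_j(b) ≤ b² kin`,  `n = ∫ ρ`,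
  `DD_j(b) = b⁻¹ ∫_{|s| ≤ b} ‖√ρ - √ρ(· + s e_j)‖² ds`.
New here: a logarithmic Sobolev inequality with jump kernel `ds/s`, for `F = √ρ`, `A > 0` (LS, Ten):
  `∫ F² log F² + d log(A/16) n - n log n ≤ 4 ∑_j ∫_0^A ‖F - F(· + s e_j)‖² ds/s`
(one variable: compare `F` with its average over `[0, l]` at the height `16 n / l`; tensorisation by induction on `d`).
With `‖F - F(· + s e_j)‖² ≤ s² kin_j` (small `s`) and `≤ 16 (s/b)² DD_j` (large `s`) this bounds `∑ DD_j` from below
when `N^(1/d)` is not large (FWin), which beats the loss `(log d)/d` of the entropic inequality. Windows in the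
density as in LTHD (FPt, FMain).
-/

open Real Finset MeasureTheory
open Pool.Agent.LiebT2 Pool.Agent.LTHD

set_option autoImplicit false

namespace Pool.Agent.LTFN

variable {d k N : ℕ}

/-- squared `L²` distance to the shift, one variable -/
noncomputable def sh1 (g : ℝ → ℝ) (s : ℝ) : ℝ := ∫ x, (g x - g (x + s)) ^ 2

/-- squared `L²` distance to the shift in direction `j` -/
noncomputable def shd (F : (Fin d → ℝ) → ℝ) (j : Fin d) (s : ℝ) : ℝ :=
  ∫ x, (F x - F (x + Pi.single j s)) ^ 2

/-- the contribution of one window, as a function of the window density -/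
noncomputable def Pf (d : ℕ) (κ E r : ℝ) : ℝ :=
  (1 + 2 / κ) * r - (1 + 1 / κ) * (2 / (d : ℝ)) * (r * Real.log (E ^ ((d : ℝ) / 2) / r))

end Pool.Agent.LTFN
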