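import Pool.Agent.LTFN.LSa

/-!
# [LTFN-LS] the one variable logarithmic Sobolev inequality

`n = ∫ g²`. If `n = 0` then `g = 0` and both sides are `0`. Let `n > 0`, `lam0 = 16 n / A`, `l_i = A 4^(-i)`, so that
`lam0 4^i = 16 n / l_i`, and let `m` be such that `g² ≤ lam0 4^m`. Pointwise, for `t = g(x)²`:
`t log (t / lam0) ≤ log 4 * ∑_{i < m} (if lam0 4^i < t then t else 0)`
(for `t ≤ lam0` the left side is `≤ 0`; otherwise with `i` maximal such that `lam0 4^i < t` we have `t ≤ lam0 4^(i+1)`).
Integrate, use `mass_le` with `l = l_i`, and `∑_{i < m} l_i⁻¹ ∫_0^{l_i} D(s) ds ≤ (4/3) ∫_0^A D(s) / s ds`,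
`D = sh1 g ≥ 0`: for each `s ∈ (0, A]`, `∑_{i : s ≤ l_i} l_i⁻¹ ≤ (4/3) / s` (geometric series; if `i0` is the largest index
with `s ≤ l_i` the sum is `≤ l_{i0}⁻¹ (1 + 1/4 + ...) ≤ (4/3) / s`). Constant: `log 4 * (16/9) * (4/3) < 3.3 < 4`.
Finally `∫ g² log (g² / lam0) = ∫ g² log g² - n log (16 n / A)`.
-/

open Real Finset MeasureTheory
open Pool.Agent.LiebT2 Pool.Agent.LTHD

set_option autoImplicit false

namespace Pool.Agent.LTFN

private theorem ls_pt (lam0 : ℝ) (hl : 0 < lam0) (m : ℕ) (t : ℝ) (ht : 0 < t)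
    (h : t ≤ lam0 * 4 ^ m) :
    Real.log (t / lam0) ≤ Real.log 4 * ∑ i ∈ Finset.range m, (if lam0 * 4 ^ i < t then (1 : ℝ) else 0) := by
  have h4 : 0 ≤ Real.log 4 := Real.log_nonneg (by norm_num)
  induction m with
  | zero =>
    simp only [pow_zero, mul_one] at h
    simp only [Finset.range_zero, Finset.sum_empty, mul_zero]
    apply Real.log_nonpos (by positivity)
    rw [div_le_one hl]; exact h
  | succ m ih =>
    by_cases hc : t ≤ lam0 * 4 ^ m
    · refine (ih hc).trans ?_
      apply mul_le_mul_of_nonneg_left _ h4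
      rw [Finset.sum_range_succ]
      have : (0 : ℝ) ≤ if lam0 * 4 ^ m < t then (1 : ℝ) else 0 := by split_ifs <;> norm_num
      linarith
    · push Not at hc
      have hs : ∑ i ∈ Finset.range (m + 1), (if lam0 * 4 ^ i < t then (1 : ℝ) else 0)
          = ((m + 1 : ℕ) : ℝ) := by
        rw [Finset.sum_congr rfl (g := fun _ => (1 : ℝ))]
        · simp
        · intro i hi
          rw [if_pos]
          refine lt_of_le_of_lt ?_ hc
          apply mul_le_mul_of_nonneg_left _ hl.le
          apply pow_le_pow_right₀ (by norm_num)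
          have := Finset.mem_range.mp hi
          omega
      rw [hs]
      have h1 : t / lam0 ≤ 4 ^ (m + 1) := by
        rw [div_le_iff₀ hl]; linarith
      calc Real.log (t / lam0) ≤ Real.log (4 ^ (m + 1)) := Real.log_le_log (by positivity) h1
        _ = Real.log 4 * ((m + 1 : ℕ) : ℝ) := by
          rw [Real.log_pow]; ring

private theorem ls_geo {D : ℝ → ℝ} (hD : Continuous D) (h0 : ∀ s, 0 ≤ D s)
    (hi : ∀ A B : ℝ, IntervalIntegrable (fun s => D s / s) volume A B) (m : ℕ) :
    ∀ A : ℝ, 0 < A →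
    (∑ i ∈ Finset.range m, (A / 4 ^ i)⁻¹ * ∫ s in (0 : ℝ)..(A / 4 ^ i), D s)
      + 1 / 3 * (A⁻¹ * ∫ s in (0 : ℝ)..A, D s) ≤ 4 / 3 * ∫ s in (0 : ℝ)..A, D s / s := by
  have key : ∀ a A : ℝ, 0 ≤ a → a ≤ A → 0 < A →
      A⁻¹ * ∫ s in a..A, D s ≤ ∫ s in a..A, D s / s := by
    intro a A ha haA hA
    rw [← intervalIntegral.integral_const_mul]
    apply intervalIntegral.integral_mono_on_of_le_Ioo haA
      ((continuous_const.mul hD).intervalIntegrable _ _) (hi _ _)
    intro s hs
    have hs0 : 0 < s := lt_of_le_of_lt ha hs.1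
    rw [div_eq_mul_inv, mul_comm]
    apply mul_le_mul_of_nonneg_left _ (h0 s)
    exact inv_anti₀ hs0 hs.2.le
  have hii : ∀ a b : ℝ, IntervalIntegrable D volume a b := fun a b => hD.intervalIntegrable _ _
  induction m with
  | zero =>
    intro A hA
    simp only [Finset.range_zero, Finset.sum_empty, zero_add]
    have h1 := key 0 A le_rfl hA.le hA
    have h2 : 0 ≤ A⁻¹ * ∫ s in (0 : ℝ)..A, D s :=
      mul_nonneg (by positivity) (intervalIntegral.integral_nonneg hA.le fun s _ => h0 s)
    linarith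
  | succ m ih =>
    intro A hA
    have hA4 : 0 < A / 4 := by positivity
    have h := ih (A / 4) hA4
    rw [Finset.sum_range_succ']
    simp only [pow_zero, div_one]
    have e : ∀ i : ℕ, A / 4 ^ (i + 1) = A / 4 / 4 ^ i := by
      intro i; rw [pow_succ]; field_simp
    simp only [e]
    have hk := key (A / 4) A hA4.le (by linarith) hA
    have s1 : (∫ s in (0 : ℝ)..A, D s) = (∫ s in (0 : ℝ)..(A / 4), D s) + ∫ s in (A / 4)..A, D s :=
      (intervalIntegral.integral_add_adjacent_intervals (hii _ _) (hii _ _)).symm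
    have s2 : (∫ s in (0 : ℝ)..A, D s / s)
        = (∫ s in (0 : ℝ)..(A / 4), D s / s) + ∫ s in (A / 4)..A, D s / s :=
      (intervalIntegral.integral_add_adjacent_intervals (hi _ _) (hi _ _)).symm
    rw [s1, s2]
    have e2 : (A / 4)⁻¹ = 4 * A⁻¹ := by field_simp
    rw [e2] at h
    nlinarith [h, hk]

theorem ls_one {g : ℝ → ℝ} {K : NNReal} (hg : LipschitzWith K g) (hs : HasCompactSupport g)
    (hg0 : ∀ x, 0 ≤ g x) {A : ℝ} (hA : 0 < A) :
    (∫ x, g x ^ 2 * Real.log (g x ^ 2)) + Real.log (A / 16) * (∫ x, g x ^ 2)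
      - (∫ x, g x ^ 2) * Real.log (∫ x, g x ^ 2)
      ≤ 4 * ∫ s in (0 : ℝ)..A, sh1 g s / s := by
  have hgc : Continuous g := hg.continuous
  have hg2c : Continuous fun x => g x ^ 2 := hgc.pow 2
  have hg2s : HasCompactSupport fun x => g x ^ 2 := by
    have := hs.comp_left (g := fun y : ℝ => y ^ 2) (by simp)
    exact this
  have hg2i : Integrable fun x => g x ^ 2 := hg2c.integrable_of_hasCompactSupport hg2s
  set n : ℝ := ∫ x, g x ^ 2 with hn
  have hn0 : 0 ≤ n := integral_nonneg fun x => sq_nonneg _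
  have hJ0 : 0 ≤ ∫ s in (0 : ℝ)..A, sh1 g s / s :=
    intervalIntegral.integral_nonneg hA.le fun s hs' => div_nonneg (sh1_nonneg g s) hs'.1
  rcases hn0.eq_or_lt with h0 | hpos
  · -- g = 0
    have hz : ∀ x, g x = 0 := by
      have h1 : (fun x => g x ^ 2) =ᵐ[volume] 0 := by
        rw [← integral_eq_zero_iff_of_nonneg (fun x => sq_nonneg _) hg2i]
        exact h0.symm
      have h2 := (Continuous.ae_eq_iff_eq volume hg2c continuous_zero).mp h1
      intro x
      have := congrFun h2 x
      simpa using this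
    have : (∫ x, g x ^ 2 * Real.log (g x ^ 2)) = 0 := by
      simp [hz]
    rw [this, ← h0]
    simp only [Real.log_zero, mul_zero, add_zero, sub_zero]
    positivity
  · set lam0 : ℝ := 16 * n / A with hlam
    have hl0 : 0 < lam0 := by positivity
    -- bound
    obtain ⟨M, hM⟩ : ∃ M : ℝ, ∀ x, g x ^ 2 ≤ M := by
      obtain ⟨C, hC⟩ := hg2s.exists_bound_of_continuous hg2c
      exact ⟨C, fun x => (le_abs_self _).trans (hC x)⟩
    obtain ⟨m, hm⟩ : ∃ m : ℕ, M ≤ lam0 * 4 ^ m := by
      obtain ⟨m, hm⟩ := pow_unbounded_of_one_lt (M / lam0) (by norm_num : (1 : ℝ) < 4)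
      refine ⟨m, ?_⟩
      rw [div_lt_iff₀ hl0] at hm
      linarith
    have hlogc : Continuous fun x => g x ^ 2 * Real.log (g x ^ 2) :=
      Real.continuous_mul_log.comp hg2c
    have hlogs : HasCompactSupport fun x => g x ^ 2 * Real.log (g x ^ 2) := by
      have := hs.comp_left (g := fun y : ℝ => y ^ 2 * Real.log (y ^ 2)) (by simp)
      exact this
    have hlogi : Integrable fun x => g x ^ 2 * Real.log (g x ^ 2) :=
      hlogc.integrable_of_hasCompactSupport hlogs
    have hlog4 : 0 ≤ Real.log 4 := Real.log_nonneg (by norm_num)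
    -- pointwise
    have hpt : ∀ x, g x ^ 2 * Real.log (g x ^ 2) - Real.log lam0 * g x ^ 2
        ≤ Real.log 4 * ∑ i ∈ Finset.range m,
          ({x | 16 * n / (A / 4 ^ i) < g x ^ 2}.indicator (fun x => g x ^ 2) x) := by
      intro x
      have hset : ∀ i : ℕ, 16 * n / (A / 4 ^ i) = lam0 * 4 ^ i := by
        intro i; rw [hlam]; field_simp
      simp only [hset]
      rcases (sq_nonneg (g x)).eq_or_lt with hx | hx
      · rw [← hx]
        simp only [zero_mul, mul_zero, sub_zero]
        apply mul_nonneg hlog4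
        apply Finset.sum_nonneg
        intro i _
        apply Set.indicator_nonneg
        intro y _; positivity
      · have h := ls_pt lam0 hl0 m (g x ^ 2) hx ((hM x).trans hm)
        rw [Real.log_div hx.ne' hl0.ne'] at h
        have h' := mul_le_mul_of_nonneg_left h hx.le
        refine le_trans (le_of_eq (by ring)) (h'.trans (le_of_eq ?_))
        rw [mul_left_comm, Finset.mul_sum]
        congr 1
        apply Finset.sum_congr rfl
        intro i _
        by_cases hc : lam0 * 4 ^ i < g x ^ 2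
        · rw [if_pos hc, Set.indicator_of_mem (by exact hc)]; ring
        · rw [if_neg hc, Set.indicator_of_notMem (by exact hc)]; ring
    have hmeas : ∀ i : ℕ, MeasurableSet {x | 16 * n / (A / 4 ^ i) < g x ^ 2} := fun i =>
      measurableSet_lt measurable_const hg2c.measurable
    have hint1 : Integrable fun x => g x ^ 2 * Real.log (g x ^ 2) - Real.log lam0 * g x ^ 2 :=
      hlogi.sub (hg2i.const_mul _)
    have hint2 : ∀ i ∈ Finset.range m, Integrable
        (fun x => {x | 16 * n / (A / 4 ^ i) < g x ^ 2}.indicator (fun x => g x ^ 2) x) :=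
      fun i _ => hg2i.indicator (hmeas i)
    have hI := integral_mono hint1 ((integrable_finset_sum _ hint2).const_mul (Real.log 4)) hpt
    rw [integral_sub hlogi (hg2i.const_mul _), integral_const_mul, integral_const_mul,
      integral_finset_sum _ hint2] at hI
    have hsum : ∑ i ∈ Finset.range m, ∫ x,
        {x | 16 * n / (A / 4 ^ i) < g x ^ 2}.indicator (fun x => g x ^ 2) x
        ≤ ∑ i ∈ Finset.range m, 16 / 9 * ((A / 4 ^ i)⁻¹ * ∫ s in (0 : ℝ)..(A / 4 ^ i), sh1 g s) := by
      apply Finset.sum_le_sum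
      intro i _
      rw [integral_indicator (hmeas i)]
      exact mass_le hg hs hg0 (by positivity)
    rw [← Finset.mul_sum] at hsum
    have hgeo := ls_geo (sh1_cont hg hs) (sh1_nonneg g) (sh1_intv hg hs) m A hA
    have hA1 : 0 ≤ A⁻¹ * ∫ s in (0 : ℝ)..A, sh1 g s :=
      mul_nonneg (by positivity) (intervalIntegral.integral_nonneg hA.le fun s _ => sh1_nonneg g s)
    have hloglam : Real.log lam0 = Real.log n - Real.log (A / 16) := by
      rw [hlam, Real.log_div (by positivity) hA.ne', Real.log_mul (by norm_num) hpos.ne',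
        Real.log_div hA.ne' (by norm_num)]
      ring
    have hlog4' : Real.log 4 < 1.4 := by
      have : Real.log 4 = 2 * Real.log 2 := by
        rw [show (4 : ℝ) = 2 ^ 2 by norm_num, Real.log_pow]; norm_num
      rw [this]
      have := Real.log_two_lt_d9
      linarith
    set S : ℝ := ∑ i ∈ Finset.range m, (A / 4 ^ i)⁻¹ * ∫ s in (0 : ℝ)..(A / 4 ^ i), sh1 g s with hSdef
    set J : ℝ := ∫ s in (0 : ℝ)..A, sh1 g s / s with hJdef
    have hS : S ≤ 4 / 3 * J := by linarith
    have h1 : (∫ x, g x ^ 2 * Real.log (g x ^ 2)) - Real.log lam0 * n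
        ≤ Real.log 4 * (16 / 9 * (4 / 3 * J)) := by
      refine hI.trans ?_
      apply mul_le_mul_of_nonneg_left _ hlog4
      exact hsum.trans (by linarith)
    rw [hloglam] at h1
    have h2 : Real.log 4 * (16 / 9 * (4 / 3 * J)) ≤ 4 * J := by
      nlinarith [mul_nonneg hJ0 (by linarith : (0:ℝ) ≤ 1.4 - Real.log 4)]
    have h3 : (∫ x, g x ^ 2 * Real.log (g x ^ 2)) + Real.log (A / 16) * n - n * Real.log n
        = (∫ x, g x ^ 2 * Real.log (g x ^ 2)) - (Real.log n - Real.log (A / 16)) * n := by ring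
    rw [h3]
    exact h1.trans h2

end Pool.Agent.LTFN
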