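import Pool.Agent.LTFN.Sh

/-!
# [LTFN-LSa] mass above a level

`n = ∫ g²`. Put `P x = l⁻¹ ∫_0^l g (x + s) ds ≥ 0`. By Cauchy-Schwarz `P x ² ≤ l⁻¹ ∫_0^l g (x + s)² ds ≤ n / l`. On the
set `{16 n / l < g²}` this gives `P ≤ g / 4`, so `(g - P)² ≥ (9/16) g²` there. And
`(g x - P x)² = (l⁻¹ ∫_0^l (g x - g (x + s)) ds)² ≤ l⁻¹ ∫_0^l (g x - g (x + s))² ds`; integrate in `x` and use Fubini.
-/

open Real Finset MeasureTheory
open Pool.Agent.LiebT2 Pool.Agent.LTHD

set_option autoImplicit false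

namespace Pool.Agent.LTFN

private theorem avg_sq_le {φ : ℝ → ℝ} (hφ : Continuous φ) {l : ℝ} (hl : 0 < l) :
    (l⁻¹ * ∫ s in (0 : ℝ)..l, φ s) ^ 2 ≤ l⁻¹ * ∫ s in (0 : ℝ)..l, φ s ^ 2 := by
  set c : ℝ := l⁻¹ * ∫ s in (0 : ℝ)..l, φ s with hc
  have h0 : 0 ≤ ∫ s in (0 : ℝ)..l, (φ s - c) ^ 2 :=
    intervalIntegral.integral_nonneg hl.le fun s _ => sq_nonneg _
  have hi1 : IntervalIntegrable (fun s => φ s ^ 2) volume 0 l :=
    (hφ.pow 2).intervalIntegrable 0 l
  have hi2 : IntervalIntegrable (fun s => 2 * c * φ s) volume 0 l :=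
    (continuous_const.mul hφ).intervalIntegrable 0 l
  have h1 : ∫ s in (0 : ℝ)..l, (φ s - c) ^ 2 =
      (∫ s in (0 : ℝ)..l, φ s ^ 2) - 2 * c * (∫ s in (0 : ℝ)..l, φ s) + l * c ^ 2 := by
    have h2 : ∀ s, (φ s - c) ^ 2 = φ s ^ 2 - 2 * c * φ s + c ^ 2 := fun s => by ring
    simp only [h2]
    rw [intervalIntegral.integral_add (hi1.sub hi2) (by simp),
      intervalIntegral.integral_sub hi1 hi2, intervalIntegral.integral_const_mul]
    simp
  have h3 : (∫ s in (0 : ℝ)..l, φ s) = l * c := by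
    rw [hc, ← mul_assoc, mul_inv_cancel₀ hl.ne', one_mul]
  rw [h1, h3] at h0
  have h4 : l * c ^ 2 ≤ ∫ s in (0 : ℝ)..l, φ s ^ 2 := by nlinarith
  rw [← div_eq_inv_mul, le_div_iff₀ hl]
  linarith

theorem mass_le {g : ℝ → ℝ} {K : NNReal} (hg : LipschitzWith K g) (hs : HasCompactSupport g)
    (hg0 : ∀ x, 0 ≤ g x) {l : ℝ} (hl : 0 < l) :
    (∫ x in {x | 16 * (∫ y, g y ^ 2) / l < g x ^ 2}, g x ^ 2)
      ≤ 16 / 9 * (l⁻¹ * ∫ s in (0 : ℝ)..l, sh1 g s) := by
  have hgc : Continuous g := hg.continuous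
  set n : ℝ := ∫ y, g y ^ 2 with hn
  have hn0 : 0 ≤ n := integral_nonneg fun _ => sq_nonneg _
  have hli : 0 < l⁻¹ := inv_pos.2 hl
  have hsq : HasCompactSupport (fun x => g x ^ 2) := by
    have := hs.comp_left (g := fun y : ℝ => y ^ 2) (by norm_num)
    exact this
  have hint : Integrable (fun x => g x ^ 2) := (hgc.pow 2).integrable_of_hasCompactSupport hsq
  -- the support
  obtain ⟨R, hR⟩ := hs.isCompact.isBounded.subset_closedBall (0 : ℝ)
  have hR' : ∀ x, g x ≠ 0 → -R ≤ x ∧ x ≤ R := by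
    intro x hx
    have h1 := hR (subset_tsupport g hx)
    rw [Metric.mem_closedBall, dist_zero_right, Real.norm_eq_abs, abs_le] at h1
    exact h1
  set T : Set ℝ := Set.Icc (-R - l) (R + l) with hT
  set f : ℝ → ℝ → ℝ := fun x s => (g x - g (x + s)) ^ 2 with hf
  have hfc : Continuous (Function.uncurry f) := by
    simp only [hf]
    exact ((hgc.comp continuous_fst).sub
      (hgc.comp (continuous_fst.add continuous_snd))).pow 2
  have hf0 : ∀ s ∈ Set.Ioc (0 : ℝ) l, ∀ x, x ∉ T → f x s = 0 := by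
    intro s hs' x hx
    have h1 : g x = 0 := by
      by_contra h
      have := hR' x h
      exact hx ⟨by linarith, by linarith⟩
    have h2 : g (x + s) = 0 := by
      by_contra h
      have := hR' _ h
      exact hx ⟨by linarith [hs'.2], by linarith [hs'.1]⟩
    simp only [hf]
    rw [h1, h2]
    norm_num
  -- integrability on the product
  have hprod : Integrable (Function.uncurry f)
      ((volume.restrict T).prod (volume.restrict (Set.Ioc (0 : ℝ) l))) := by
    rw [Measure.prod_restrict]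
    have hcomp : IsCompact (T ×ˢ Set.Icc (0 : ℝ) l) := isCompact_Icc.prod isCompact_Icc
    exact (hfc.continuousOn.integrableOn_compact hcomp).mono_set
      (Set.prod_mono le_rfl Set.Ioc_subset_Icc_self)
  have hfub : ∫ s in (0 : ℝ)..l, sh1 g s = ∫ x in T, ∫ s in (0 : ℝ)..l, f x s := by
    rw [intervalIntegral.integral_of_le hl.le]
    have h1 : ∀ s ∈ Set.Ioc (0 : ℝ) l, sh1 g s = ∫ x in T, f x s := by
      intro s hs'
      unfold sh1
      symm
      exact setIntegral_eq_integral_of_forall_compl_eq_zero fun x hx => hf0 s hs' x hx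
    rw [setIntegral_congr_fun measurableSet_Ioc h1]
    simp only [intervalIntegral.integral_of_le hl.le]
    exact (integral_integral_swap hprod).symm
  have hhint : IntegrableOn (fun x => ∫ s in (0 : ℝ)..l, f x s) T := by
    simp only [intervalIntegral.integral_of_le hl.le]
    exact hprod.integral_prod_left
  -- the pointwise inequality
  have hpt : ∀ x ∈ {x | 16 * n / l < g x ^ 2},
      g x ^ 2 ≤ 16 / 9 * (l⁻¹ * ∫ s in (0 : ℝ)..l, f x s) := by
    intro x hx
    have hx' : 16 * n / l < g x ^ 2 := hx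
    set P : ℝ := l⁻¹ * ∫ s in (0 : ℝ)..l, g (x + s) with hP
    have hcx : Continuous fun s => g (x + s) := hgc.comp (continuous_const.add continuous_id)
    have hP0 : 0 ≤ P :=
      mul_nonneg hli.le (intervalIntegral.integral_nonneg hl.le fun s _ => hg0 _)
    have hP1 : P ^ 2 ≤ n / l := by
      refine (avg_sq_le hcx hl).trans ?_
      rw [← div_eq_inv_mul]
      apply div_le_div_of_nonneg_right _ hl.le
      rw [intervalIntegral.integral_of_le hl.le]
      have h1 : ∫ s, g (x + s) ^ 2 = n := integral_add_left_eq_self (fun y => g y ^ 2) x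
      rw [← h1]
      have h2 : Integrable fun s => g (x + s) ^ 2 := hint.comp_add_left x
      exact setIntegral_le_integral h2 (Filter.Eventually.of_forall fun _ => sq_nonneg _)
    have hP2 : 4 * P ≤ g x := by
      have h1 : (4 * P) ^ 2 ≤ g x ^ 2 := by
        have h2 : 16 * n / l = 16 * (n / l) := by ring
        nlinarith
      exact (abs_le_of_sq_le_sq' h1 (hg0 x)).2
    have h3 : 9 / 16 * g x ^ 2 ≤ (g x - P) ^ 2 := by
      nlinarith [hg0 x]
    have h4 : g x - P = l⁻¹ * ∫ s in (0 : ℝ)..l, (g x - g (x + s)) := by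
      rw [intervalIntegral.integral_sub (by simp) (hcx.intervalIntegrable 0 l),
        intervalIntegral.integral_const, hP]
      simp only [sub_zero, smul_eq_mul]
      rw [mul_sub, ← mul_assoc, inv_mul_cancel₀ hl.ne', one_mul]
    have h5 := avg_sq_le (φ := fun s => g x - g (x + s)) (continuous_const.sub hcx) hl
    rw [← h4] at h5
    have h6 : (l⁻¹ * ∫ s in (0 : ℝ)..l, (g x - g (x + s)) ^ 2) =
        l⁻¹ * ∫ s in (0 : ℝ)..l, f x s := rfl
    rw [h6] at h5
    linarith
  have hAm : MeasurableSet {x | 16 * n / l < g x ^ 2} :=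
    measurableSet_lt measurable_const (hgc.pow 2).measurable
  have hAT : {x | 16 * n / l < g x ^ 2} ⊆ T := by
    intro x hx
    have hx' : 16 * n / l < g x ^ 2 := hx
    have h1 : 0 ≤ 16 * n / l := by positivity
    have h2 : g x ≠ 0 := by
      intro h
      rw [h] at hx'
      norm_num at hx'
      linarith
    have := hR' x h2
    exact ⟨by linarith, by linarith⟩
  calc (∫ x in {x | 16 * n / l < g x ^ 2}, g x ^ 2)
      ≤ ∫ x in {x | 16 * n / l < g x ^ 2}, 16 / 9 * (l⁻¹ * ∫ s in (0 : ℝ)..l, f x s) :=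
        setIntegral_mono_on hint.integrableOn
          (((hhint.mono_set hAT).const_mul _).const_mul _) hAm hpt
    _ ≤ ∫ x in T, 16 / 9 * (l⁻¹ * ∫ s in (0 : ℝ)..l, f x s) := by
        refine setIntegral_mono_set ((hhint.const_mul _).const_mul _)
          (Filter.Eventually.of_forall fun x => ?_) (LE.le.eventuallyLE hAT)
        have : 0 ≤ ∫ s in (0 : ℝ)..l, f x s :=
          intervalIntegral.integral_nonneg hl.le fun s _ => sq_nonneg _
        change 0 ≤ 16 / 9 * (l⁻¹ * ∫ s in (0 : ℝ)..l, f x s)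
        positivity
    _ = 16 / 9 * (l⁻¹ * ∫ s in (0 : ℝ)..l, sh1 g s) := by
        rw [integral_const_mul, integral_const_mul, hfub]

end Pool.Agent.LTFN
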