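import Pool.Agent.LTFN.TenA

/-!
# [LTFN-TenB] slices of `F`

`sli F x = F (x, ·)` is Lipschitz with the same constant (`cL` preserves the sup distance in `y`: `Fin.cons`) and has
compact support. Fubini identities (everything continuous with compact support in `(x, y)`; `integral_cL` and
`integral_prod`):
* `∫ F² = ∫ nrm F x ^ 2 dx`,
* `∫ F² log F² = ∫ (∫ sli² log sli² dy) dx` (the function `t ↦ t² log t²` is continuous),
* `∫ ent_x dx` of the slice inequality: `∫ x, ∫ s in 0..A, shd (sli F x) i s / s = ∫ s in 0..A, shd F i.succ s / s`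
  (swap with `intervalIntegral` Fubini: the integrand `(F(x,y) - F(x, y + s e_i))² / s` is nonnegative, measurable,
  bounded by `K² s` and supported in a fixed ball in `(x, y)` for `0 < s ≤ A`).
Integrability in `x` of each term (`x ↦ ∫ sli² log sli²` continuous with compact support; `x ↦ ∫ s in 0..A, shd (sli F x) i s / s`
integrable, again by Fubini).
-/

open Real Finset MeasureTheory
open Pool.Agent.LiebT2 Pool.Agent.LTHD

set_option autoImplicit false

namespace Pool.Agent.LTFN

variable {d k N : ℕ}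

/-- slice -/
noncomputable def sli (F : (Fin (k + 1) → ℝ) → ℝ) (x : ℝ) : (Fin k → ℝ) → ℝ := fun y => F (cL k (x, y))

private theorem tenB_norm_cL (y : Fin k → ℝ) : ‖cL k ((0 : ℝ), y)‖ ≤ ‖y‖ := by
  rw [pi_norm_le_iff_of_nonneg (norm_nonneg _)]
  intro i
  rw [cL_apply]
  refine Fin.cases ?_ (fun j => ?_) i
  · simp
  · simpa using norm_le_pi_norm y j

private theorem tenB_add (x : ℝ) (y : Fin k → ℝ) (i : Fin k) (s : ℝ) :
    cL k (x, y + Pi.single i s) = cL k (x, y) + Pi.single i.succ s := by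
  rw [cL_apply, cL_apply]
  funext j
  refine Fin.cases ?_ (fun l => ?_) j
  · simp [(Fin.succ_ne_zero _).symm]
  · simp [Pi.single_apply, Fin.succ_inj]

theorem sli_lip {F : (Fin (k + 1) → ℝ) → ℝ} {K : NNReal} (hF : LipschitzWith K F) (x : ℝ) :
    LipschitzWith K (sli F x) := by
  apply LipschitzWith.of_dist_le_mul
  intro y y'
  refine (hF.dist_le_mul _ _).trans (mul_le_mul_of_nonneg_left ?_ K.coe_nonneg)
  rw [dist_eq_norm, dist_eq_norm, ← map_sub]
  have h : ((x, y) : ℝ × (Fin k → ℝ)) - (x, y') = (0, y - y') := by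
    ext <;> simp
  rw [h]
  exact tenB_norm_cL _

theorem sli_cs {F : (Fin (k + 1) → ℝ) → ℝ} (hs : HasCompactSupport F) (x : ℝ) :
    HasCompactSupport (sli F x) := by
  obtain ⟨R, -, hR⟩ := exists_van hs
  apply HasCompactSupport.intro (K := Metric.closedBall (0 : Fin k → ℝ) R) (isCompact_closedBall _ _)
  intro y hy
  apply hR
  rw [mem_closedBall_zero_iff, not_le] at hy
  exact hy.le.trans (norm_cL_ge2 k x y)

private theorem tenB_fub {φ : (Fin (k + 1) → ℝ) → ℝ} (hc : Continuous φ) {R : ℝ} (hR : Van R φ) :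
    (∫ x, ∫ y, φ (cL k (x, y))) = ∫ z, φ z := by
  rw [integral_cL, Measure.volume_eq_prod, integral_prod _ (integrable_cL hc hR)]

theorem int_nrm_sq {F : (Fin (k + 1) → ℝ) → ℝ} {K : NNReal} (hF : LipschitzWith K F)
    (hs : HasCompactSupport F) : (∫ x, nrm F x ^ 2) = ∫ z, F z ^ 2 := by
  obtain ⟨R, -, hR⟩ := exists_van hs
  simp only [nrm_sq]
  refine tenB_fub (φ := fun z => F z ^ 2) (hF.continuous.pow 2) (R := R) ?_
  intro z hz
  simp [hR z hz]

private theorem tenB_mulLog {F : (Fin (k + 1) → ℝ) → ℝ} (hF : Continuous F) :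
    Continuous (fun z => F z ^ 2 * Real.log (F z ^ 2)) :=
  Real.continuous_mul_log.comp (hF.pow 2)

theorem int_ent {F : (Fin (k + 1) → ℝ) → ℝ} {K : NNReal} (hF : LipschitzWith K F)
    (hs : HasCompactSupport F) :
    Integrable (fun x => ∫ y, sli F x y ^ 2 * Real.log (sli F x y ^ 2)) ∧
    (∫ x, ∫ y, sli F x y ^ 2 * Real.log (sli F x y ^ 2)) = ∫ z, F z ^ 2 * Real.log (F z ^ 2) := by
  obtain ⟨R, -, hR⟩ := exists_van hs
  have hv : Van R (fun z => F z ^ 2 * Real.log (F z ^ 2)) := by
    intro z hz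
    simp [hR z hz]
  exact ⟨(integrable_cL (tenB_mulLog hF.continuous) hv).integral_prod_left,
    tenB_fub (tenB_mulLog hF.continuous) hv⟩

private theorem tenB_van {F : (Fin (k + 1) → ℝ) → ℝ} {R : ℝ} (hR : Van R F) (i : Fin k) (s : ℝ) :
    Van (R + |s|) (fun z => (F z - F (z + Pi.single i.succ s)) ^ 2) := by
  intro z hz
  have h1 : R ≤ ‖z‖ := le_trans (by linarith [abs_nonneg s]) hz
  have h2 : R ≤ ‖z + Pi.single i.succ s‖ := by
    have h3 : ‖z‖ ≤ ‖z + Pi.single i.succ s‖ + ‖(Pi.single i.succ s : Fin (k + 1) → ℝ)‖ := by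
      have := norm_sub_le (z + Pi.single i.succ s) (Pi.single i.succ s)
      simpa using this
    rw [Pi.norm_single, Real.norm_eq_abs] at h3
    linarith
  simp [hR z h1, hR _ h2]

private theorem tenB_sli (F : (Fin (k + 1) → ℝ) → ℝ) (i : Fin k) (x s : ℝ) :
    shd (sli F x) i s = ∫ y, (F (cL k (x, y)) - F (cL k (x, y) + Pi.single i.succ s)) ^ 2 := by
  unfold shd sli
  simp only [tenB_add]

private theorem tenB_inner {F : (Fin (k + 1) → ℝ) → ℝ} (hF : Continuous F)
    (hs : HasCompactSupport F) (i : Fin k) (s : ℝ) :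
    (∫ x, shd (sli F x) i s) = shd F i.succ s := by
  obtain ⟨R, -, hR⟩ := exists_van hs
  simp only [tenB_sli]
  exact tenB_fub (φ := fun z => (F z - F (z + Pi.single i.succ s)) ^ 2)
    ((hF.sub (hF.comp (continuous_id.add continuous_const))).pow 2) (tenB_van hR i s)

private theorem tenB_meas {F : (Fin (k + 1) → ℝ) → ℝ} (hF : Continuous F) (i : Fin k) :
    StronglyMeasurable (fun p : ℝ × ℝ => shd (sli F p.1) i p.2) := by
  simp only [tenB_sli]
  have hs : Continuous fun s : ℝ => (Pi.single i.succ s : Fin (k + 1) → ℝ) :=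
    continuous_single (A := fun _ : Fin (k + 1) => ℝ) i.succ
  have h1 : Continuous fun q : (ℝ × ℝ) × (Fin k → ℝ) => cL k (q.1.1, q.2) :=
    (cL k).continuous.comp ((continuous_fst.comp continuous_fst).prodMk continuous_snd)
  have h2 : Continuous fun q : (ℝ × ℝ) × (Fin k → ℝ) =>
      (F (cL k (q.1.1, q.2)) - F (cL k (q.1.1, q.2) + Pi.single i.succ q.1.2)) ^ 2 :=
    ((hF.comp h1).sub (hF.comp (h1.add (hs.comp (continuous_snd.comp continuous_fst))))).pow 2
  exact h2.stronglyMeasurable.integral_prod_right'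

private theorem tenB_int {F : (Fin (k + 1) → ℝ) → ℝ} {K : NNReal} (hF : LipschitzWith K F)
    (hs : HasCompactSupport F) (i : Fin k) (A : ℝ) :
    Integrable (Function.uncurry fun (x s : ℝ) => shd (sli F x) i s / s)
      (volume.prod (volume.restrict (Set.Ioc 0 A))) := by
  obtain ⟨R, hR0, hR⟩ := exists_van hs
  obtain ⟨V, hV⟩ : ∃ V : ℝ, V = (volume (Metric.closedBall (0 : Fin k → ℝ) (R + A))).toReal :=
    ⟨_, rfl⟩
  have hV0 : 0 ≤ V := by
    rw [hV]
    exact ENNReal.toReal_nonneg
  -- bound of the numerator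
  have hb : ∀ x s : ℝ, 0 < s → s ≤ A → shd (sli F x) i s ≤ (K : ℝ) ^ 2 * s ^ 2 * V := by
    intro x s h0 h1
    rw [tenB_sli]
    have h2 : ∀ y : Fin k → ℝ, (F (cL k (x, y)) - F (cL k (x, y) + Pi.single i.succ s)) ^ 2 ≤
        (Metric.closedBall (0 : Fin k → ℝ) (R + A)).indicator (fun _ => (K : ℝ) ^ 2 * s ^ 2) y := by
      intro y
      by_cases hy : y ∈ Metric.closedBall (0 : Fin k → ℝ) (R + A)
      · rw [Set.indicator_of_mem hy, ← mul_pow]
        apply sq_le_sq'
        · have h3 := hF.dist_le_mul (cL k (x, y)) (cL k (x, y) + Pi.single i.succ s)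
          rw [Real.dist_eq, dist_eq_norm, sub_add_cancel_left, norm_neg, Pi.norm_single,
            Real.norm_eq_abs, abs_of_pos h0] at h3
          exact (abs_le.mp h3).1
        · have h3 := hF.dist_le_mul (cL k (x, y)) (cL k (x, y) + Pi.single i.succ s)
          rw [Real.dist_eq, dist_eq_norm, sub_add_cancel_left, norm_neg, Pi.norm_single,
            Real.norm_eq_abs, abs_of_pos h0] at h3
          exact (abs_le.mp h3).2
      · rw [Set.indicator_of_notMem hy]
        rw [mem_closedBall_zero_iff, not_le] at hy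
        have h4 : R + |s| ≤ ‖cL k (x, y)‖ := by
          rw [abs_of_pos h0]
          linarith [norm_cL_ge2 k x y]
        exact (tenB_van hR i s _ h4).le
    have h5 : Integrable ((Metric.closedBall (0 : Fin k → ℝ) (R + A)).indicator
        (fun _ => (K : ℝ) ^ 2 * s ^ 2)) := by
      rw [integrable_indicator_iff Metric.isClosed_closedBall.measurableSet]
      exact integrableOn_const (isCompact_closedBall _ _).measure_lt_top.ne
    have h6 : (∫ y, (Metric.closedBall (0 : Fin k → ℝ) (R + A)).indicator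
        (fun _ => (K : ℝ) ^ 2 * s ^ 2) y) = (K : ℝ) ^ 2 * s ^ 2 * V := by
      rw [integral_indicator Metric.isClosed_closedBall.measurableSet, setIntegral_const, hV,
        Measure.real, smul_eq_mul, mul_comm]
    rw [← h6]
    exact integral_mono_of_nonneg (Filter.Eventually.of_forall fun y => sq_nonneg _) h5
      (Filter.Eventually.of_forall h2)
  have hz : ∀ x s : ℝ, 0 < s → s ≤ A → x ∉ Set.Icc (-(R + A)) (R + A) → shd (sli F x) i s = 0 := by
    intro x s h0 h1 hx
    rw [tenB_sli]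
    have h2 : R + A < |x| := by
      by_contra h
      exact hx (abs_le.mp (not_lt.mp h))
    have h3 : ∀ y : Fin k → ℝ, (F (cL k (x, y)) - F (cL k (x, y) + Pi.single i.succ s)) ^ 2 = 0 := by
      intro y
      apply tenB_van hR i s
      rw [abs_of_pos h0]
      linarith [norm_cL_ge1 k x y]
    simp [h3]
  -- the dominating function
  have hd : Integrable (fun p : ℝ × ℝ => (Set.Icc (-(R + A)) (R + A)).indicator
      (fun _ => (K : ℝ) ^ 2 * A * V) p.1 * (1 : ℝ)) (volume.prod (volume.restrict (Set.Ioc 0 A))) := by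
    apply Integrable.mul_prod (f := (Set.Icc (-(R + A)) (R + A)).indicator
      (fun _ => (K : ℝ) ^ 2 * A * V)) (g := fun _ : ℝ => (1 : ℝ))
    · rw [integrable_indicator_iff measurableSet_Icc]
      exact integrableOn_const measure_Icc_lt_top.ne
    · exact integrableOn_const measure_Ioc_lt_top.ne
  refine hd.mono' ?_ ?_
  · exact ((tenB_meas hF.continuous i).measurable.div measurable_snd).aestronglyMeasurable
  · have hae : ∀ᵐ s ∂(volume.restrict (Set.Ioc 0 A)), s ∈ Set.Ioc 0 A :=
      ae_restrict_mem measurableSet_Ioc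
    have hae2 : ∀ᵐ p ∂((volume : Measure ℝ).prod (volume.restrict (Set.Ioc 0 A))),
        p.2 ∈ Set.Ioc 0 A := by
      have hq : Measure.QuasiMeasurePreserving (Prod.snd : ℝ × ℝ → ℝ)
          ((volume : Measure ℝ).prod (volume.restrict (Set.Ioc 0 A))) (volume.restrict (Set.Ioc 0 A)) :=
        Measure.quasiMeasurePreserving_snd
      exact hq.ae hae
    filter_upwards [hae2] with p hp
    obtain ⟨x, s⟩ := p
    obtain ⟨h0, h1⟩ := hp
    change ‖shd (sli F x) i s / s‖ ≤ _
    rw [Real.norm_of_nonneg (div_nonneg (shd_nonneg _ _ _) h0.le), mul_one]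
    change _ ≤ (Set.Icc (-(R + A)) (R + A)).indicator (fun _ => (K : ℝ) ^ 2 * A * V) x
    by_cases hx : x ∈ Set.Icc (-(R + A)) (R + A)
    · rw [Set.indicator_of_mem hx, div_le_iff₀ h0]
      refine (hb x s h0 h1).trans ?_
      have h7 : (K : ℝ) ^ 2 * s ^ 2 * V = (K : ℝ) ^ 2 * s * V * s := by ring
      rw [h7]
      have h8 : (K : ℝ) ^ 2 * s ≤ (K : ℝ) ^ 2 * A := mul_le_mul_of_nonneg_left h1 (sq_nonneg _)
      exact mul_le_mul_of_nonneg_right (mul_le_mul_of_nonneg_right h8 hV0) h0.le
    · rw [Set.indicator_of_notMem hx, hz x s h0 h1 hx, zero_div]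

theorem int_shd {F : (Fin (k + 1) → ℝ) → ℝ} {K : NNReal} (hF : LipschitzWith K F)
    (hs : HasCompactSupport F) (i : Fin k) {A : ℝ} (hA : 0 < A) :
    Integrable (fun x => ∫ s in (0 : ℝ)..A, shd (sli F x) i s / s) ∧
    (∫ x, ∫ s in (0 : ℝ)..A, shd (sli F x) i s / s) = ∫ s in (0 : ℝ)..A, shd F i.succ s / s := by
  have hI := tenB_int hF hs i A
  simp only [intervalIntegral.integral_of_le hA.le]
  refine ⟨hI.integral_prod_left, ?_⟩
  rw [integral_integral_swap hI]
  congr 1
  funext s
  rw [integral_div, tenB_inner hF.continuous hs]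

end Pool.Agent.LTFN
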