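import Pool.Agent.LTFN.LS
import Pool.Agent.LTFN.TenB

/-!
# [LTFN-Ten] tensorisation

Induction on `d`. `d = 0`: `Fin 0 → ℝ` is one point of mass one, both sides are `F(0)² log F(0)² - F(0)² log F(0)² = 0` and `0`.
Step: for each `x` the induction hypothesis for `sli F x` reads
`∫ sli² log sli² + k log(A/16) nrm(x)² - nrm(x)² log nrm(x)² ≤ 4 ∑_i ∫_0^A shd (sli F x) i s / s ds`; integrate over `x`
(`int_ent`, `int_nrm_sq`, `int_shd`), add `ls_one` for `g = nrm F` (`nrm_lip`, `nrm_cs`, `nrm ≥ 0`):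
`∫ nrm² log nrm² + log(A/16) n - n log n ≤ 4 ∫_0^A sh1 (nrm F) s / s ds ≤ 4 ∫_0^A shd F 0 s / s ds` (`sh1_nrm`).
`x ↦ nrm(x)² log nrm(x)²` is continuous with compact support.
-/

open Real Finset MeasureTheory
open Pool.Agent.LiebT2 Pool.Agent.LTHD

set_option autoImplicit false

namespace Pool.Agent.LTFN

variable {d k N : ℕ}

private theorem ten_vol0 (f : (Fin 0 → ℝ) → ℝ) : (∫ x, f x) = f default := by
  rw [integral_unique]
  have : (volume : Measure (Fin 0 → ℝ)).real Set.univ = 1 := by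
    simp [Measure.real, volume_pi]
  rw [this, one_smul]
  exact congrArg f (Subsingleton.elim _ _)

private theorem ten_int_nrm {F : (Fin (k + 1) → ℝ) → ℝ} {K : NNReal} (hF : LipschitzWith K F)
    (hs : HasCompactSupport F) : Integrable (fun x => nrm F x ^ 2) ∧
      Integrable (fun x => nrm F x ^ 2 * Real.log (nrm F x ^ 2)) := by
  obtain ⟨K', hK'⟩ := nrm_lip hF hs
  have hc := nrm_cs hF hs
  have hc2 : Continuous (fun x => nrm F x ^ 2) := hK'.continuous.pow 2
  have hs2 : HasCompactSupport (fun x => nrm F x ^ 2) := by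
    have := hc.comp_left (g := fun t : ℝ => t ^ 2) (by simp)
    exact this
  refine ⟨hc2.integrable_of_hasCompactSupport hs2, ?_⟩
  have hcl : Continuous (fun x => nrm F x ^ 2 * Real.log (nrm F x ^ 2)) :=
    Real.continuous_mul_log.comp hc2
  refine hcl.integrable_of_hasCompactSupport ?_
  have := hs2.comp_left (g := fun t : ℝ => t * Real.log t) (by simp)
  exact this

theorem ls_tensor {F : (Fin d → ℝ) → ℝ} {K : NNReal} (hF : LipschitzWith K F)
    (hs : HasCompactSupport F) (hF0 : ∀ x, 0 ≤ F x) {A : ℝ} (hA : 0 < A) :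
    (∫ x, F x ^ 2 * Real.log (F x ^ 2)) + d * Real.log (A / 16) * (∫ x, F x ^ 2)
      - (∫ x, F x ^ 2) * Real.log (∫ x, F x ^ 2)
      ≤ 4 * ∑ j, ∫ s in (0 : ℝ)..A, shd F j s / s := by
  induction d with
  | zero =>
    rw [ten_vol0, ten_vol0]
    simp
  | succ k ih =>
    obtain ⟨K', hK'⟩ := nrm_lip hF hs
    obtain ⟨i1, i2⟩ := ten_int_nrm hF hs
    obtain ⟨i3, e3⟩ := int_ent hF hs
    -- slice inequality
    have hx : ∀ x, (∫ y, sli F x y ^ 2 * Real.log (sli F x y ^ 2))
        + k * Real.log (A / 16) * nrm F x ^ 2 - nrm F x ^ 2 * Real.log (nrm F x ^ 2)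
        ≤ 4 * ∑ j, ∫ s in (0 : ℝ)..A, shd (sli F x) j s / s := by
      intro x
      have h := ih (sli_lip hF x) (sli_cs hs x) (fun y => hF0 _)
      have e : (∫ y, sli F x y ^ 2) = nrm F x ^ 2 := (nrm_sq F x).symm
      rwa [e] at h
    have j1 : Integrable (fun x => (∫ y, sli F x y ^ 2 * Real.log (sli F x y ^ 2))
        + k * Real.log (A / 16) * nrm F x ^ 2) := i3.add (i1.const_mul _)
    have j2 : Integrable (fun x => 4 * ∑ j, ∫ s in (0 : ℝ)..A, shd (sli F x) j s / s) :=
      (integrable_finsetSum _ fun j _ => (int_shd hF hs j hA).1).const_mul 4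
    have hint := integral_mono (j1.sub i2) j2 hx
    have el : (∫ x, (((∫ y, sli F x y ^ 2 * Real.log (sli F x y ^ 2))
        + k * Real.log (A / 16) * nrm F x ^ 2) - nrm F x ^ 2 * Real.log (nrm F x ^ 2)))
        = (∫ z, F z ^ 2 * Real.log (F z ^ 2)) + k * Real.log (A / 16) * (∫ z, F z ^ 2)
          - ∫ x, nrm F x ^ 2 * Real.log (nrm F x ^ 2) := by
      rw [integral_sub j1 i2, integral_add i3 (i1.const_mul _), integral_const_mul, e3,
        int_nrm_sq hF hs]
    have er : (∫ x, 4 * ∑ j, ∫ s in (0 : ℝ)..A, shd (sli F x) j s / s)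
        = 4 * ∑ j : Fin k, ∫ s in (0 : ℝ)..A, shd F j.succ s / s := by
      rw [integral_const_mul, integral_finsetSum _ fun j _ => (int_shd hF hs j hA).1]
      congr 1
      exact Finset.sum_congr rfl fun j _ => (int_shd hF hs j hA).2
    have h1 : (∫ z, F z ^ 2 * Real.log (F z ^ 2)) + k * Real.log (A / 16) * (∫ z, F z ^ 2)
          - (∫ x, nrm F x ^ 2 * Real.log (nrm F x ^ 2))
          ≤ 4 * ∑ j : Fin k, ∫ s in (0 : ℝ)..A, shd F j.succ s / s := by
      rw [← el, ← er]
      exact hint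
    have h2 := ls_one hK' (nrm_cs hF hs) (fun x => Real.sqrt_nonneg _) hA
    rw [int_nrm_sq hF hs] at h2
    have h3 : (∫ s in (0 : ℝ)..A, sh1 (nrm F) s / s) ≤ ∫ s in (0 : ℝ)..A, shd F 0 s / s := by
      refine intervalIntegral.integral_mono_on hA.le (sh1_intv hK' (nrm_cs hF hs) 0 A)
        (shd_intv hF hs 0 0 A) fun s hs' => ?_
      exact div_le_div_of_nonneg_right (sh1_nrm hF hs s) hs'.1
    rw [Fin.sum_univ_succ]
    push_cast
    linarith
end Pool.Agent.LTFN
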