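import Pool.Agent.LTFN.Sh

/-!
# [LTFN-TenA] the norm of the slices

`nrm F x = √(∫ F(x, y)² dy)`. It vanishes for large `|x|`; it is Lipschitz because
`|nrm F x - nrm F x'| ≤ (∫ (F(x, y) - F(x', y))² dy)^(1/2)` (reverse triangle inequality in `L²`, i.e.
`(√a - √b)² = a + b - 2 √a √b ≤ ∫ (f - g)²` by Cauchy-Schwarz `∫ f g ≤ √a √b`) and the integrand is
`≤ K² |x - x'|²` and supported in a fixed ball (in `y`).
`sh1_nrm`: integrate the same inequality with `x' = x + s` over `x` (Fubini: `integral_cL`).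
Useful: `cL k (x, y) = Fin.cons x y`, `integral_cL`, `norm_cL_ge1`, `norm_cL_ge2`, `exists_van` in Pool.Agent.LiebT2.Geo.
-/

open Real Finset MeasureTheory
open Pool.Agent.LiebT2 Pool.Agent.LTHD

set_option autoImplicit false

namespace Pool.Agent.LTFN

variable {d k N : ℕ}

/-- norm of the slice -/
noncomputable def nrm (F : (Fin (k + 1) → ℝ) → ℝ) (x : ℝ) : ℝ := √(∫ y, F (cL k (x, y)) ^ 2)

theorem nrm_sq (F : (Fin (k + 1) → ℝ) → ℝ) (x : ℝ) : nrm F x ^ 2 = ∫ y, F (cL k (x, y)) ^ 2 :=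
  Real.sq_sqrt (integral_nonneg fun _ => sq_nonneg _)

/-- reverse triangle inequality in `L²` -/
private theorem tenA_cs {f g : (Fin k → ℝ) → ℝ} (hf : Continuous f) (hg : Continuous g)
    (hfs : HasCompactSupport f) (hgs : HasCompactSupport g) :
    (√(∫ y, f y ^ 2) - √(∫ y, g y ^ 2)) ^ 2 ≤ ∫ y, (f y - g y) ^ 2 := by
  have iff2 : Integrable (fun y => f y ^ 2) volume := by
    have h : Integrable (fun y => f y * f y) volume :=
      (hf.mul hf).integrable_of_hasCompactSupport hfs.mul_right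
    have e : (fun y => f y ^ 2) = fun y => f y * f y := by funext y; ring
    rw [e]; exact h
  have igg2 : Integrable (fun y => g y ^ 2) volume := by
    have h : Integrable (fun y => g y * g y) volume :=
      (hg.mul hg).integrable_of_hasCompactSupport hgs.mul_right
    have e : (fun y => g y ^ 2) = fun y => g y * g y := by funext y; ring
    rw [e]; exact h
  have ifg : Integrable (fun y => f y * g y) volume :=
    (hf.mul hg).integrable_of_hasCompactSupport hfs.mul_right
  have key : ∀ t : ℝ, ∫ y, (f y - t * g y) ^ 2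
      = (∫ y, g y ^ 2) * (t * t) + (-2 * ∫ y, f y * g y) * t + ∫ y, f y ^ 2 := by
    intro t
    have e : (fun y => (f y - t * g y) ^ 2)
        = fun y => (f y ^ 2 + (-2 * t) * (f y * g y)) + (t * t) * g y ^ 2 := by
      funext y; ring
    have i1 : Integrable (fun y => (-2 * t) * (f y * g y)) volume := ifg.const_mul _
    have i2 : Integrable (fun y => (t * t) * g y ^ 2) volume := igg2.const_mul _
    have i3 : Integrable (fun y => f y ^ 2 + (-2 * t) * (f y * g y)) volume := iff2.add i1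
    rw [e, integral_add i3 i2, integral_add iff2 i1, integral_const_mul, integral_const_mul]
    ring
  have hd := discrim_le_zero (a := ∫ y, g y ^ 2) (b := -2 * ∫ y, f y * g y) (c := ∫ y, f y ^ 2)
    (fun t => by
      rw [← key t]
      exact integral_nonneg fun _ => sq_nonneg _)
  have ha : 0 ≤ ∫ y, f y ^ 2 := integral_nonneg fun _ => sq_nonneg _
  have hb : 0 ≤ ∫ y, g y ^ 2 := integral_nonneg fun _ => sq_nonneg _
  have h1 := key 1
  simp only [one_mul, mul_one] at h1
  rw [h1]
  have hCS : (∫ y, f y * g y) ≤ √(∫ y, f y ^ 2) * √(∫ y, g y ^ 2) := by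
    rw [← Real.sqrt_mul ha]
    apply Real.le_sqrt_of_sq_le
    unfold discrim at hd
    have h4 : (-2 * ∫ y, f y * g y) ^ 2 = 4 * (∫ y, f y * g y) ^ 2 := by ring
    rw [h4] at hd
    linarith
  have e1 := Real.sq_sqrt ha
  have e2 := Real.sq_sqrt hb
  have e3 : (√(∫ y, f y ^ 2) - √(∫ y, g y ^ 2)) ^ 2 = √(∫ y, f y ^ 2) ^ 2
      - 2 * (√(∫ y, f y ^ 2) * √(∫ y, g y ^ 2)) + √(∫ y, g y ^ 2) ^ 2 := by ring
  rw [e3, e1, e2]
  linarith

private theorem tenA_dist (x x' : ℝ) (y : Fin k → ℝ) :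
    dist (cL k (x, y)) (cL k (x', y)) ≤ |x - x'| := by
  rw [dist_pi_le_iff (abs_nonneg _)]
  intro i
  rw [cL_apply, cL_apply]
  refine Fin.cases ?_ (fun j => ?_) i
  · simp [Real.dist_eq]
  · simp

private theorem tenA_slice_cont {F : (Fin (k + 1) → ℝ) → ℝ} (hF : Continuous F) (x : ℝ) :
    Continuous (fun y => F (cL k (x, y))) :=
  hF.comp ((cL k).continuous.comp (Continuous.prodMk_right x))

private theorem tenA_slice_cs {F : (Fin (k + 1) → ℝ) → ℝ} {R : ℝ} (hR : Van R F) (x : ℝ) :
    HasCompactSupport (fun y => F (cL k (x, y))) := by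
  apply HasCompactSupport.intro (isCompact_closedBall (0 : Fin k → ℝ) R)
  intro y hy
  apply hR
  rw [mem_closedBall_zero_iff, not_le] at hy
  exact hy.le.trans (norm_cL_ge2 k x y)

private theorem tenA_nrm_diff {F : (Fin (k + 1) → ℝ) → ℝ} (hF : Continuous F) {R : ℝ}
    (hR : Van R F) (x x' : ℝ) :
    (nrm F x - nrm F x') ^ 2 ≤ ∫ y, (F (cL k (x, y)) - F (cL k (x', y))) ^ 2 :=
  tenA_cs (tenA_slice_cont hF x) (tenA_slice_cont hF x') (tenA_slice_cs hR x)
    (tenA_slice_cs hR x')

theorem nrm_lip {F : (Fin (k + 1) → ℝ) → ℝ} {K : NNReal} (hF : LipschitzWith K F)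
    (hs : HasCompactSupport F) : ∃ K' : NNReal, LipschitzWith K' (nrm F) := by
  obtain ⟨R, hR0, hR⟩ := exists_van hs
  set v : ℝ := (volume (Metric.closedBall (0 : Fin k → ℝ) R)).toReal with hv
  have hv0 : 0 ≤ v := ENNReal.toReal_nonneg
  refine ⟨K * Real.toNNReal (√v), LipschitzWith.of_dist_le_mul fun x x' => ?_⟩
  have h1 := tenA_nrm_diff hF.continuous hR x x'
  have h2 : ∫ y, (F (cL k (x, y)) - F (cL k (x', y))) ^ 2 ≤ (K * |x - x'|) ^ 2 * v := by
    have e : ∫ y, (F (cL k (x, y)) - F (cL k (x', y))) ^ 2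
        = ∫ y in Metric.closedBall (0 : Fin k → ℝ) R,
          (F (cL k (x, y)) - F (cL k (x', y))) ^ 2 := by
      refine (setIntegral_eq_integral_of_forall_compl_eq_zero fun y hy => ?_).symm
      rw [mem_closedBall_zero_iff, not_le] at hy
      rw [hR _ (hy.le.trans (norm_cL_ge2 k x y)), hR _ (hy.le.trans (norm_cL_ge2 k x' y))]
      simp
    rw [e]
    have hfin : volume (Metric.closedBall (0 : Fin k → ℝ) R) < ⊤ :=
      (isCompact_closedBall _ _).measure_lt_top
    have hb := norm_setIntegral_le_of_norm_le_const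
      (f := fun y => (F (cL k (x, y)) - F (cL k (x', y))) ^ 2) (C := (K * |x - x'|) ^ 2) hfin
      (fun y _ => by
        rw [Real.norm_eq_abs, abs_pow]
        apply pow_le_pow_left₀ (abs_nonneg _)
        have h3 := hF.dist_le_mul (cL k (x, y)) (cL k (x', y))
        rw [Real.dist_eq] at h3
        exact h3.trans (mul_le_mul_of_nonneg_left (tenA_dist x x' y) K.coe_nonneg))
    exact (le_abs_self _).trans hb
  have h4 : |nrm F x - nrm F x'| ≤ K * |x - x'| * √v := by
    apply abs_le_of_sq_le_sq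
    · calc (nrm F x - nrm F x') ^ 2 ≤ (K * |x - x'|) ^ 2 * v := h1.trans h2
        _ = (K * |x - x'| * √v) ^ 2 := by rw [mul_pow _ (√v), Real.sq_sqrt hv0]
    · positivity
  rw [Real.dist_eq, Real.dist_eq, NNReal.coe_mul, Real.coe_toNNReal _ (Real.sqrt_nonneg _)]
  linarith

theorem nrm_cs {F : (Fin (k + 1) → ℝ) → ℝ} {K : NNReal} (hF : LipschitzWith K F)
    (hs : HasCompactSupport F) : HasCompactSupport (nrm F) := by
  have _ := hF
  obtain ⟨R, hR0, hR⟩ := exists_van hs
  apply HasCompactSupport.intro (isCompact_Icc (a := -R) (b := R))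
  intro x hx
  have hx' : R ≤ |x| := by
    by_contra h
    rw [not_le, abs_lt] at h
    exact hx ⟨h.1.le, h.2.le⟩
  unfold nrm
  simp [slice_zero hR hx']

theorem sh1_nrm {F : (Fin (k + 1) → ℝ) → ℝ} {K : NNReal} (hF : LipschitzWith K F)
    (hs : HasCompactSupport F) (s : ℝ) : sh1 (nrm F) s ≤ shd F 0 s := by
  obtain ⟨R, hR0, hR⟩ := exists_van hs
  have hc := hF.continuous
  set G : (Fin (k + 1) → ℝ) → ℝ := fun z => (F z - F (z + Pi.single 0 s)) ^ 2 with hG
  have hGc : Continuous G := (hc.sub (hc.comp (continuous_add_const _))).pow 2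
  have hns : ‖(Pi.single (0 : Fin (k + 1)) s : Fin (k + 1) → ℝ)‖ ≤ |s| := by
    rw [pi_norm_le_iff_of_nonneg (abs_nonneg _)]
    intro i
    refine Fin.cases ?_ (fun j => ?_) i
    · simp
    · simp
  have hGR : Van (R + |s|) G := by
    intro z hz
    have h1 : R ≤ ‖z‖ := by linarith [abs_nonneg s]
    have h2 : R ≤ ‖z + Pi.single 0 s‖ := by
      have h3 : ‖z‖ ≤ ‖z + Pi.single 0 s‖ + ‖(Pi.single (0 : Fin (k + 1)) s : Fin (k + 1) → ℝ)‖ := by
        have := norm_sub_le (z + Pi.single 0 s) (Pi.single (0 : Fin (k + 1)) s)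
        rwa [add_sub_cancel_right] at this
      linarith
    simp [hG, hR _ h1, hR _ h2]
  have hadd : ∀ (x : ℝ) (y : Fin k → ℝ), cL k (x, y) + Pi.single 0 s = cL k (x + s, y) := by
    intro x y
    funext i
    rw [Pi.add_apply, cL_apply, cL_apply]
    refine Fin.cases ?_ (fun j => ?_) i
    · simp
    · simp
  have hi := integrable_cL hGc hGR
  have e : shd F 0 s = ∫ x, ∫ y, G (cL k (x, y)) := by
    unfold shd
    rw [integral_cL, Measure.volume_eq_prod, integral_prod _ hi]
  rw [e]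
  unfold sh1
  apply integral_mono_of_nonneg
  · exact Filter.Eventually.of_forall fun x => sq_nonneg _
  · exact hi.integral_prod_left
  · refine Filter.Eventually.of_forall fun x => ?_
    have h := tenA_nrm_diff hc hR x (x + s)
    refine h.trans (le_of_eq ?_)
    apply integral_congr_ae
    refine Filter.Eventually.of_forall fun y => ?_
    simp only [hG, hadd]

end Pool.Agent.LTFN
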